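import Pool.Agent.P.MP_de899d_pr.RG.Ifc

/-! Classes that split all neighbourhoods evenly. -/

set_option autoImplicit false
set_option linter.unusedSectionVars false

namespace Pool.Agent.P.MP_de899d_pr.RG
open Finset Equiv

namespace CLSx
variable {V : Type} [Fintype V] [DecidableEq V]

theorem near {K : Type} [Fintype K] [DecidableEq K] (c c0 : V → K) (D : ℕ)
    (h : ∀ k, #(fib c k) ≤ #(fib c0 k) + D) :
    ∃ (s : Perm V) (B : Finset V), #B ≤ Fintype.card K * D ∧ ∀ x, x ∉ B → c0 (s x) = c x := by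
  choose S hS hSc using fun k => exists_subset_card_eq (min_le_left #(fib c k) #(fib c0 k))
  choose T hT hTc using fun k => exists_subset_card_eq (min_le_right #(fib c k) #(fib c0 k))
  have aux : ∀ (c : V → K) (S : K → Finset V), (∀ k, S k ⊆ fib c k) → ∀ k,
      fib (fun x => if x ∈ S (c x) then some (c x) else none) (some k) = S k := fun c S hS k => by
    ext x
    rw [mem_fib]
    constructor
    · intro e
      split_ifs at e with h1
      exact Option.some.inj e ▸ h1
    · intro e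
      rw [mem_fib.1 (hS k e), if_pos e]
  have tot : ∀ f : V → Option K, Fintype.card V = #(fib f none) + ∑ k, #(fib f (some k)) :=
    fun f => by
      rw [← Fintype.sum_option fun o => #(fib f o)]
      exact card_eq_sum_card_fiberwise (f := f) fun x _ => mem_univ _
  obtain ⟨s, hs⟩ := exists_perm_fib (fun x => if x ∈ S (c x) then some (c x) else none)
    (fun x => if x ∈ T (c0 x) then some (c0 x) else none) (by
      rintro (_ | k)
      · have h1 := tot fun x => if x ∈ S (c x) then some (c x) else none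
        have h2 := tot fun x => if x ∈ T (c0 x) then some (c0 x) else none
        simp only [aux c S hS, hSc] at h1
        simp only [aux c0 T hT, hTc] at h2
        omega
      · rw [aux c S hS, aux c0 T hT, hSc, hTc])
  refine ⟨s, univ.biUnion fun k => fib c k \ S k, ?_, fun x hx => ?_⟩
  · refine (card_biUnion_le_card_mul _ _ D fun k _ => ?_).trans (by simp)
    have := h k
    rw [card_sdiff_of_subset (hS k), hSc]
    omega
  · have h1 : x ∈ S (c x) := by_contra fun h1 =>
      hx (mem_biUnion.2 ⟨c x, mem_univ _, mem_sdiff.2 ⟨mem_fib.2 rfl, h1⟩⟩)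
    have h2 := hs x
    rw [if_pos h1] at h2
    split_ifs at h2
    exact Option.some.inj h2

theorem fib_perm (s : Perm V) (P : V → Prop) [DecidablePred P] :
    #(univ.filter fun x => P (s x)) = #(univ.filter P) :=
  card_equiv s (by simp)

theorem spl [Nonempty V] {κ : Type} [DecidableEq κ] (c : V → κ) (a : κ) (S B : Finset V)
    (s U : V → V) (d D E : ℕ) (hS : #S = d) (hB : #B ≤ 256 * D)
    (hs : ∀ x, x ∉ B → c (s x) = c (U x))
    (h1 : Fintype.card V / 16 ≤ #(fib c a)) (h2 : #(fib c a) ≤ Fintype.card V / 16 + 1)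
    (h : ¬ ((cnt S (fun _ l => c l = a) U : ℝ) ≤ Pr (fun l => c l = a) * #S - D ∨
      Pr (fun l => c l = a) * #S + D ≤ cnt S (fun _ l => c l = a) U)) (hE : 4112 * D + 16 ≤ E) :
    d ≤ 16 * #(S ∩ fib (fun x => c (s x)) a) + E ∧
      16 * #(S ∩ fib (fun x => c (s x)) a) ≤ d + E := by
  have e : cnt S (fun _ l => c l = a) U = #(S ∩ fib (fun x => c (U x)) a) := by
    unfold cnt
    congr 1
    ext x
    simp [fib]
  have k : ∀ s U : V → V, (∀ x, x ∉ B → c (s x) = c (U x)) →
      #(S ∩ fib (fun x => c (s x)) a) ≤ #(S ∩ fib (fun x => c (U x)) a) + #B := fun s U hs => by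
    refine le_trans (card_le_card fun x hx => ?_) (card_union_le _ _)
    rw [mem_inter, mem_fib] at hx
    rw [mem_union, mem_inter, mem_fib]
    by_cases hx' : x ∈ B
    · exact .inr hx'
    · exact .inl ⟨hx.1, hs x hx' ▸ hx.2⟩
  have k1 := k s U hs
  have k2 := k U s fun x hx => (hs x hx).symm
  rw [e, Pr_eq_card, hS, not_or, not_le, not_le] at h
  have hd : d ≤ Fintype.card V := hS ▸ card_le_univ S
  have hn : (0 : ℝ) < Fintype.card V := by exact_mod_cast Fintype.card_pos
  change (#(fib c a) : ℝ) / _ * _ - _ < _ ∧ _ < (#(fib c a) : ℝ) / _ * _ + _ at h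
  have h3 : (Fintype.card V : ℝ) ≤ 16 * #(fib c a) + 16 := by
    exact_mod_cast (by omega : Fintype.card V ≤ 16 * #(fib c a) + 16)
  have h4 : (16 * #(fib c a) : ℝ) ≤ Fintype.card V + 16 := by
    exact_mod_cast (by omega : 16 * #(fib c a) ≤ Fintype.card V + 16)
  have h5 : (d : ℝ) ≤ Fintype.card V := by exact_mod_cast hd
  have h6 : (0 : ℝ) ≤ d := by positivity
  have h7 : (d : ℝ) - 16 ≤ 16 * ((#(fib c a) : ℝ) / Fintype.card V * d) := by
    rw [div_mul_eq_mul_div, ← mul_div_assoc, le_div_iff₀ hn]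
    nlinarith
  have h8 : 16 * ((#(fib c a) : ℝ) / Fintype.card V * d) ≤ d + 16 := by
    rw [div_mul_eq_mul_div, ← mul_div_assoc, div_le_iff₀ hn]
    nlinarith
  have h9 : d ≤ 16 * #(S ∩ fib (fun x => c (U x)) a) + 16 * D + 16 := by
    have : (d : ℝ) ≤ 16 * #(S ∩ fib (fun x => c (U x)) a) + 16 * D + 16 := by linarith [h.1]
    exact_mod_cast this
  have h10 : 16 * #(S ∩ fib (fun x => c (U x)) a) ≤ d + 16 * D + 16 := by
    have : (16 * #(S ∩ fib (fun x => c (U x)) a) : ℝ) ≤ d + 16 * D + 16 := by linarith [h.2]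
    exact_mod_cast this
  omega

end CLSx

open CLSx in
theorem cls (h : S_CLU) : S_CLS := by
  classical
  intro V _ _ Y Z d G hY hZ hn1 hn2 hG
  have hY1 : Y ≤ Y ^ 260 := le_self_pow₀ (by omega) (by norm_num)
  have hn0 : 1000 ≤ Fintype.card V := by
    have := pz Y hZ 260
    omega
  have : Nonempty V := Fintype.card_pos_iff.1 (by omega)
  obtain ⟨cT, cH, hC⟩ := h V hn0
  obtain ⟨D, hD⟩ : ∃ D, D = Y ^ 190 * Z := ⟨_, rfl⟩
  have hD0 : 0 < D := hD ▸ Nat.mul_pos (pow_pos (by omega) _) hZ
  let S : (V ⊕ V) ⊕ Unit → Finset V := Sum.elim (Sum.elim (fun x => univ.filter fun y => G (x, y))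
    fun x => univ.filter fun y => G (y, x)) fun _ => univ
  let P : (Fin 16 ⊕ Fin 16) ⊕ Fin 16 × Fin 16 → V → Prop := Sum.elim
    (Sum.elim (fun a l => cT l = a) fun a l => cH l = a) fun k l => (cT l, cH l) = k
  obtain ⟨U, hU⟩ : ∃ U : V → V, ∀ i j,
      ¬ ((cnt (S i) (fun _ => P j) U : ℝ) ≤ Pr (P j) * #(S i) - D ∨
        Pr (P j) * #(S i) + D ≤ cnt (S i) (fun _ => P j) U) := by
    by_contra hn
    have h1 := Pr_exists_univ (fun (p : _ × _) (U : V → V) =>
      (cnt (S p.1) (fun _ => P p.2) U : ℝ) ≤ Pr (P p.2) * #(S p.1) - D ∨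
        Pr (P p.2) * #(S p.1) + D ≤ cnt (S p.1) (fun _ => P p.2) U)
      (δ := 2 * Real.exp (-((Y : ℝ) * Z))) fun p => by
        refine (dev (S p.1) (P p.2) (N := Fintype.card V) (by exact_mod_cast hD0)
          (by exact_mod_cast card_le_univ _)).trans ?_
        have := dev190 hY hZ Fintype.card_pos hn2
        rw [hD]
        push_cast
        linarith
    have h2 := Pr_not fun U : V → V => ∃ p : _ × _,
      (cnt (S p.1) (fun _ => P p.2) U : ℝ) ≤ Pr (P p.2) * #(S p.1) - D ∨
        Pr (P p.2) * #(S p.1) + D ≤ cnt (S p.1) (fun _ => P p.2) U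
    rw [Pr_false fun U k => hn ⟨U, fun i j e => k ⟨(i, j), e⟩⟩] at h2
    have h3 := small hY hZ hn2
    have h4 : (1 : ℝ) ≤ Fintype.card V := by exact_mod_cast (by omega : 1 ≤ Fintype.card V)
    have h5 := Real.exp_pos (-((Y : ℝ) * Z))
    simp only [Fintype.card_prod, Fintype.card_sum, Fintype.card_fin, Fintype.card_unit] at h1
    push_cast at h1
    nlinarith
  obtain ⟨s, B, hB, hs⟩ := CLSx.near (fun x => (cT (U x), cH (U x))) (fun l => (cT l, cH l)) D
    fun k => by
      have h1 := not_le.1 (not_or.1 (hU (.inr ()) (.inr k))).2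
      have hn : (Fintype.card V : ℝ) ≠ 0 := by exact_mod_cast Fintype.card_ne_zero
      have e : cnt (S (.inr ())) (fun _ => P (.inr k)) U =
          #(fib (fun x => (cT (U x), cH (U x))) k) := by
        unfold cnt
        congr 1
        ext x
        simp [fib, S, P]
      have e' : Pr (P (.inr k)) * #(S (.inr ())) = #(fib (fun l => (cT l, cH l)) k) := by
        change Pr (fun l => (cT l, cH l) = k) * #(univ : Finset V) = _
        rw [Pr_eq_card, card_univ, div_mul_cancel₀ _ hn]
        rfl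
      rw [e, e'] at h1
      exact_mod_cast h1.le
  have hB' : #B ≤ 256 * D := by simpa using hB
  have f1 : ∀ (c : V → Fin 16) a, #(fib (fun x => c (s x)) a) = #(fib c a) := fun c a =>
    fib_perm s fun x => c x = a
  have hE : 4112 * D + 16 ≤ Y ^ 200 * Z := by
    have := pw hY Z 4128 190 200 (by norm_num) (by norm_num)
    omega
  have r1 : ∀ x Q, eN G {x} Q = #(S (.inl (.inl x)) ∩ Q) := fun x Q => by
    rw [eN_row, sum_singleton]
    congr 1
    ext y
    simp [S, and_comm]
  have r2 : ∀ x Q, eN G Q {x} = #(S (.inl (.inr x)) ∩ Q) := fun x Q => by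
    rw [eN_col, sum_singleton]
    congr 1
    ext y
    simp [S, and_comm]
  have d1 : ∀ x, #(S (.inl (.inl x))) = d := hG.1
  have d2 : ∀ x, #(S (.inl (.inr x))) = d := hG.2
  refine ⟨fun x => cT (s x), fun x => cH (s x), ⟨fun a => f1 cT a ▸ hC.size a,
    fun a => by rw [f1, f1, hC.eq], fun y => hC.sub _, fun a => ?_⟩, fun a => ⟨fun x => ?_, fun x => ?_⟩⟩
  · have := fib_perm s fun x => cH x = a ∧ cT x = a + 1
    rw [filter_and, filter_and] at this
    exact (hC.link a).trans (Nat.mul_le_mul_left 4 this.ge)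
  · rw [r1, r2]
    exact ⟨spl cT a _ B s U d D _ (d1 x) hB' (fun x hx => congrArg Prod.fst (hs x hx))
        (hC.size a).1 (hC.size a).2 (hU _ (.inl (.inl a))) hE,
      spl cT a _ B s U d D _ (d2 x) hB' (fun x hx => congrArg Prod.fst (hs x hx))
        (hC.size a).1 (hC.size a).2 (hU _ (.inl (.inl a))) hE⟩
  · rw [r1, r2]
    exact ⟨spl cH a _ B s U d D _ (d1 x) hB' (fun x hx => congrArg Prod.snd (hs x hx))
        (hC.eq a ▸ (hC.size a).1) (hC.eq a ▸ (hC.size a).2) (hU _ (.inl (.inr a))) hE,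
      spl cH a _ B s U d D _ (d2 x) hB' (fun x hx => congrArg Prod.snd (hs x hx))
        (hC.eq a ▸ (hC.size a).1) (hC.eq a ▸ (hC.size a).2) (hU _ (.inl (.inr a))) hE⟩

end Pool.Agent.P.MP_de899d_pr.RG
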