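import Pool.Agent.P.MP_de899d_pr.RG.Ifc
import Pool.Agent.P.MP_de899d_pr.Dense

/-! The deterministic assembly for regular digraphs. -/

set_option autoImplicit false

namespace Pool.Agent.P.MP_de899d_pr.RG
open Finset Equiv

theorem union4 {Y Z K m : ℕ} (hY : 10 ^ 20 ≤ Y) (hZ : 0 < Z) (hK : K ≤ 2 * Y ^ 104) (hm0 : 0 < m)
    (hm : m ≤ 3 * (Y ^ 156 * Z)) :
    16 * ((K : ℝ) * m) * K * Real.exp (-((((Y ^ 100 * Z : ℕ) : ℝ)) ^ 2 / (4 * m))) < 1 := by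
  have Y0 : (10 : ℝ) ^ 20 ≤ Y := by exact_mod_cast hY
  have Yp : (0 : ℝ) < Y := lt_of_lt_of_le (by positivity) Y0
  have Z1 : (1 : ℝ) ≤ Z := by exact_mod_cast hZ
  have hK' : (K : ℝ) ≤ 2 * (Y : ℝ) ^ 104 := by exact_mod_cast hK
  have hm' : (m : ℝ) ≤ 3 * ((Y : ℝ) ^ 156 * Z) := by exact_mod_cast hm
  have hm0' : (0 : ℝ) < m := by exact_mod_cast hm0
  have h1 : (Y : ℝ) ^ 44 * Z / 12 ≤ (((Y ^ 100 * Z : ℕ) : ℝ)) ^ 2 / (4 * m) := by
    rw [div_le_div_iff₀ (by norm_num) (by positivity)]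
    push_cast
    have := mul_le_mul_of_nonneg_left hm' (show (0 : ℝ) ≤ (Y : ℝ) ^ 44 * Z by positivity)
    linarith
  have h2 := (Real.pow_div_factorial_le_exp _ (by positivity) 10).trans (Real.exp_le_exp.2 h1)
  have h3 : 16 * ((K : ℝ) * m) * K ≤ 192 * ((Y : ℝ) ^ 364 * Z) := by
    calc 16 * ((K : ℝ) * m) * K ≤
          16 * (2 * (Y : ℝ) ^ 104 * (3 * (Y ^ 156 * Z))) * (2 * Y ^ 104) := by gcongr
      _ = _ := by ring
  have h4 : ((10 : ℝ) ^ 20) ^ 76 ≤ (Y : ℝ) ^ 76 := by gcongr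
  have h5 : 192 * ((Y : ℝ) ^ 364 * Z) < ((Y : ℝ) ^ 44 * Z / 12) ^ 10 / (Nat.factorial 10 : ℕ) := by
    rw [lt_div_iff₀ (by positivity), div_pow, lt_div_iff₀ (by positivity)]
    have h6 : (192 : ℝ) * (Nat.factorial 10 : ℕ) * 12 ^ 10 < (Y : ℝ) ^ 76 :=
      lt_of_lt_of_le (by norm_num [Nat.factorial]) h4
    have h7 : (Z : ℝ) ≤ Z ^ 10 := le_self_pow₀ Z1 (by norm_num)
    have h8 := mul_lt_mul_of_pos_left h6 (show (0 : ℝ) < (Y : ℝ) ^ 364 * Z by positivity)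
    have h9 := mul_le_mul_of_nonneg_left h7 (pow_pos Yp 440).le
    calc _ = (Y : ℝ) ^ 364 * Z * (192 * (Nat.factorial 10 : ℕ) * 12 ^ 10) := by ring
      _ < (Y : ℝ) ^ 364 * Z * Y ^ 76 := h8
      _ = (Y : ℝ) ^ 440 * Z := by ring
      _ ≤ (Y : ℝ) ^ 440 * Z ^ 10 := h9
      _ = _ := by ring
  rw [Real.exp_neg, ← div_eq_mul_inv, div_lt_one (Real.exp_pos _)]
  linarith

variable {V : Type} [Fintype V] [DecidableEq V]

/-- The approximate decomposition with the parameters of this scale. -/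
theorem apx4 (hapx : S_APX) {Y Z k : ℕ} {F R1 R2 R3 : V × V → Prop} (hY : 10 ^ 20 ≤ Y)
    (hZ : 0 < Z) (hn : Y ^ 260 * Z ≤ Fintype.card V) (hn' : Fintype.card V ≤ 2 * (Y ^ 260 * Z))
    (d1 : ∀ e, F e → ¬ R1 e ∧ ¬ R2 e ∧ ¬ R3 e) (d2 : ∀ e, R1 e → ¬ R2 e ∧ ¬ R3 e)
    (d3 : ∀ e, R2 e → ¬ R3 e) (f1 : ∀ x, k ≤ rdeg F x ∧ rdeg F x ≤ k + 8 * (Y ^ 210 * Z))
    (f2 : ∀ y, k ≤ rdeg (tr F) y ∧ rdeg (tr F) y ≤ k + 8 * (Y ^ 210 * Z))
    (hF : Den F (20 * Y) (Y ^ 104 * Z)) (hR : Den R1 (8 * Y ^ 51) (Y ^ 104 * Z))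
    (hd : ∀ x, Y ^ 210 * Z ≤ 2 * rdeg R1 x ∧ Y ^ 210 * Z ≤ 2 * rdeg (tr R1) x ∧
      Y ^ 210 * Z ≤ 2 * rdeg R2 x ∧ Y ^ 210 * Z ≤ 2 * rdeg (tr R3) x) (hk : Y ^ 257 * Z ≤ k) :
    ∃ (k' : ℕ) (H : Fin k' → Perm V), (∀ j, Ham (H j)) ∧ Disj H ∧
      (∀ j x, F (x, H j x) ∨ R1 (x, H j x) ∨ R2 (x, H j x) ∨ R3 (x, H j x)) ∧
      k' ≤ k ∧ k ≤ k' + 9 * (Y ^ 210 * Z) := by
  have Y0 : 0 < Y := by omega
  have p := fun i j => pw hY Z 100000 i j (by norm_num)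
  have q0 : 0 < Y ^ 104 := pow_pos Y0 _
  have z1 := pz Y hZ 104
  have z2 := pz Y hZ 208
  have z3 := pz Y hZ 51
  obtain ⟨K, hK, K1, K2⟩ := Nat.exists_prime_lt_and_le_two_mul (Y ^ 104) q0.ne'
  obtain ⟨m, m1, m2⟩ : ∃ m, Fintype.card V ≤ K * m ∧ K * m < Fintype.card V + K := by
    refine ⟨(Fintype.card V + K - 1) / K, ?_, ?_⟩
    · have := Nat.lt_mul_div_succ (Fintype.card V + K - 1) hK.pos
      rw [mul_add] at this
      omega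
    · have := Nat.mul_div_le (Fintype.card V + K - 1) K
      omega
  have m3 : m ≤ 3 * (Y ^ 156 * Z) := by
    refine Nat.le_of_mul_le_mul_left ?_ q0
    have a1 := Nat.mul_le_mul_right m K1.le
    have a2 : Y ^ 104 * (3 * (Y ^ 156 * Z)) = 3 * (Y ^ 260 * Z) := by ring
    have := p 104 260 (by omega)
    omega
  have m4 : Y ^ 156 * Z ≤ 2 * m := by
    refine Nat.le_of_mul_le_mul_left ?_ q0
    have a1 := Nat.mul_le_mul_right m K2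
    have a2 : Y ^ 104 * (Y ^ 156 * Z) = Y ^ 260 * Z := by ring
    have a3 : Y ^ 104 * (2 * m) = 2 * Y ^ 104 * m := by ring
    omega
  have m5 : m / K ≤ 3 * (Y ^ 52 * Z) := by
    refine Nat.div_le_of_le_mul ?_
    have a1 := Nat.mul_le_mul_right (3 * (Y ^ 52 * Z)) K1.le
    have a2 : Y ^ 104 * (3 * (Y ^ 52 * Z)) = 3 * (Y ^ 156 * Z) := by ring
    omega
  have m0 : 0 < m := by
    have : 0 < Y ^ 156 * Z := by positivity
    omega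
  have e1 : K * (2 * (Y ^ 100 * Z) + 1) ≤ 4 * (Y ^ 204 * Z) + 2 * Y ^ 104 :=
    (Nat.mul_le_mul_right _ K2).trans_eq (by ring)
  have e2 : 12 * (Y ^ 210 * Z) ≤ 3 * (4 * (Y ^ 106 * Z)) * (K - 1) :=
    (by ring : _ = 3 * (4 * (Y ^ 106 * Z)) * Y ^ 104).trans_le (Nat.mul_le_mul_left _ (by omega))
  have e3 : K * (8 * (Y ^ 140 * Z) + 5 * (4 * (Y ^ 106 * Z)) + Y ^ 100 * Z + 1) ≤
      16 * (Y ^ 244 * Z) + 40 * (Y ^ 210 * Z) + 2 * (Y ^ 204 * Z) + 2 * Y ^ 104 :=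
    (Nat.mul_le_mul_right _ K2).trans_eq (by ring)
  have e4 : 4 * (8 * Y ^ 51) * (m / K + 1) ≤ 96 * (Y ^ 103 * Z) + 32 * Y ^ 51 :=
    (Nat.mul_le_mul_left _ (Nat.add_le_add_right m5 1)).trans_eq (by ring)
  have e5 : K * (10 * (4 * (Y ^ 104 * Z)) + K + m / K + 1 + Y ^ 100 * Z) ≤
      80 * (Y ^ 208 * Z) + 4 * Y ^ 208 + 6 * (Y ^ 156 * Z) + 2 * Y ^ 104 + 2 * (Y ^ 204 * Z) :=
    (Nat.mul_le_mul K2 (by omega : _ ≤ 40 * (Y ^ 104 * Z) + 2 * Y ^ 104 + 3 * (Y ^ 52 * Z) + 1 +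
      Y ^ 100 * Z)).trans_eq (by ring)
  have e6 : K * (4 * (Y ^ 106 * Z) + Y ^ 100 * Z + 1) ≤
      8 * (Y ^ 210 * Z) + 2 * (Y ^ 204 * Z) + 2 * Y ^ 104 :=
    (Nat.mul_le_mul_right _ K2).trans_eq (by ring)
  have e7 : 8 * (20 * Y) * (4 * (Y ^ 106 * Z)) = 640 * (Y ^ 107 * Z) := by ring
  have e8 : 128 * (8 * Y ^ 51) * (4 * (Y ^ 104 * Z)) = 4096 * (Y ^ 155 * Z) := by ring
  have := p 51 103 (by omega)
  have := p 103 104 (by omega)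
  have := p 104 107 (by omega)
  have := p 107 140 (by omega)
  have := p 140 155 (by omega)
  have := p 155 156 (by omega)
  have := p 156 204 (by omega)
  have := p 204 208 (by omega)
  have := p 208 210 (by omega)
  have := p 210 244 (by omega)
  have := p 244 257 (by omega)
  obtain ⟨k', H, a1, a2, a3, a4, a5⟩ := hapx V F R1 R2 R3 K m k (8 * (Y ^ 210 * Z)) (20 * Y)
    (Y ^ 104 * Z) (8 * Y ^ 51) (Y ^ 104 * Z) (Y ^ 210 * Z / 2) (Y ^ 100 * Z) (4 * (Y ^ 106 * Z))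
    (Y ^ 140 * Z) (4 * (Y ^ 104 * Z)) hK m1 m2 d1 d2 d3 f1 f2 hF hR
    (fun x => by have := hd x; omega)
    (union4 hY hZ K2 m0 m3) (by omega) (by omega) (by omega) (by omega) (by omega) (by omega)
    (by omega) (by omega) (by positivity) (by omega) (by omega)
  exact ⟨k', H, a1, a2, a3, a4, by omega⟩

open DenseAux in
theorem den4 (hapx : S_APX) (hrd : S_RD4) {Y Z r1 δ : ℕ} {cT cH : V → Fin 16}
    {R : Fin 7 → V × V → Prop} (hY : 10 ^ 20 ≤ Y) (hZ : 0 < Z)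
    (hn : Y ^ 260 * Z ≤ Fintype.card V) (hn' : Fintype.card V ≤ 2 * (Y ^ 260 * Z))
    (hC : Clu cT cH (Fintype.card V / 16)) (hS : St4 Y Z r1 cT cH R) {G : V × V → Prop}
    (hG : Irr G) (hRG : ∀ i e, R i e → G e) (hD : Reg G δ) (g6 : Y ^ 259 * Z ≤ δ) : Tgt δ G := by
  obtain ⟨A, rA, hA, ⟨A1, A2⟩, hrA, hrob⟩ := hrd V Y Z r1 cT cH R hY hZ hn hn' hC hS
  obtain ⟨g1, g2⟩ := hD
  have p := fun i j => RG.pw hY Z 100000 i j (by norm_num)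
  have dj : ∀ (i j : Fin 7) e, i ≠ j → R i e → ¬ R j e := fun i j e h a b => h (hS.disj i j e a b)
  have AR : ∀ (i : Fin 7) e, i ≠ 0 → i ≠ 2 → R i e → ¬ A e := fun i e h h' a b =>
    (hA e b).elim (dj _ _ e h a) (dj _ _ e h' a)
  have AG : ∀ e, A e → G e := fun e h => (hA e h).elim (hRG _ e) (hRG _ e)
  obtain ⟨P, hP⟩ : ∃ P : V × V → Prop, P = fun e => A e ∨ R 3 e ∨ R 4 e ∨ R 5 e ∨ R 6 e := ⟨_, rfl⟩
  have PG : ∀ e, P e → G e := by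
    subst hP
    rintro e (h | h | h | h | h)
    exacts [AG e h, hRG _ e h, hRG _ e h, hRG _ e h, hRG _ e h]
  have AP : ∀ e, A e → P e := fun e h => hP ▸ Or.inl h
  have P3 : ∀ e, R 3 e → P e := fun e h => hP ▸ Or.inr (Or.inl h)
  have P4 : ∀ e, R 4 e → P e := fun e h => hP ▸ Or.inr (Or.inr (Or.inl h))
  have P5 : ∀ e, R 5 e → P e := fun e h => hP ▸ Or.inr (Or.inr (Or.inr (Or.inl h)))
  have P6 : ∀ e, R 6 e → P e := fun e h => hP ▸ Or.inr (Or.inr (Or.inr (Or.inr h)))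
  have dP : ∀ x, (rA ≤ rdeg P x ∧ rdeg P x ≤ rA + 8 * (Y ^ 210 * Z)) ∧
      rA ≤ rdeg (tr P) x ∧ rdeg (tr P) x ≤ rA + 8 * (Y ^ 210 * Z) := by
    intro x
    have := sp AP x
    subst hP
    have := or_le A (fun e => R 3 e ∨ R 4 e ∨ R 5 e ∨ R 6 e) x
    have := or_le (R 3) (fun e => R 4 e ∨ R 5 e ∨ R 6 e) x
    have := or_le (R 4) (fun e => R 5 e ∨ R 6 e) x
    have := or_le (R 5) (R 6) x
    have := hS.deg3 3 (by decide) x
    have := hS.deg3 4 (by decide) x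
    have := hS.deg3 5 (by decide) x
    have := hS.deg3 6 (by decide) x
    have := A1 x
    have := A2 x
    omega
  have R1P : ∀ e, R 1 e → G e ∧ ¬ P e := by
    subst hP
    refine fun e h => ⟨hRG _ e h, ?_⟩
    rintro (h' | h' | h' | h' | h')
    exacts [AR 1 e (by decide) (by decide) h h', dj 1 3 e (by decide) h h',
      dj 1 4 e (by decide) h h', dj 1 5 e (by decide) h h', dj 1 6 e (by decide) h h']
  have n1 := p 210 211 (by omega)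
  have n2 := p 211 245 (by omega)
  have n3 := p 245 257 (by omega)
  have n4 := p 257 259 (by omega)
  have dF : ∀ x, (δ - rA - 8 * (Y ^ 210 * Z) ≤ rdeg (fun e => G e ∧ ¬ P e) x ∧
      rdeg (fun e => G e ∧ ¬ P e) x ≤ δ - rA - 8 * (Y ^ 210 * Z) + 8 * (Y ^ 210 * Z)) ∧
      δ - rA - 8 * (Y ^ 210 * Z) ≤ rdeg (tr fun e => G e ∧ ¬ P e) x ∧
      rdeg (tr fun e => G e ∧ ¬ P e) x ≤ δ - rA - 8 * (Y ^ 210 * Z) + 8 * (Y ^ 210 * Z) := by
    intro x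
    have := sp PG x
    have := dP x
    have := g1 x
    have := g2 x
    omega
  obtain ⟨k', H, a1, a2, a3, a4, a5⟩ := apx4 hapx (R1 := R 4) (R2 := R 5) (R3 := R 6) hY hZ hn hn'
    (fun e h => ⟨fun a => h.2 (P4 e a), fun a => h.2 (P5 e a), fun a => h.2 (P6 e a)⟩)
    (fun e h => ⟨dj 4 5 e (by decide) h, dj 4 6 e (by decide) h⟩) (fun e => dj 5 6 e (by decide))
    (fun x => (dF x).1) (fun x => (dF x).2) (hS.den1.mono R1P le_rfl le_rfl) hS.den4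
    (fun x => ⟨(hS.deg3 4 (by decide) x).1, (hS.deg3 4 (by decide) x).2.2.1,
      (hS.deg3 5 (by decide) x).1, (hS.deg3 6 (by decide) x).2.2.1⟩) (by omega)
  have s3 : ∀ e, Gr H e → G e ∧ ¬ A e := by
    rintro ⟨x, y⟩ ⟨j, hj⟩
    obtain rfl : H j x = y := hj
    rcases a3 j x with h | h | h | h
    exacts [⟨h.1, fun a => h.2 (AP _ a)⟩,
      ⟨hRG _ _ h, AR 4 _ (by decide) (by decide) h⟩,
      ⟨hRG _ _ h, AR 5 _ (by decide) (by decide) h⟩,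
      ⟨hRG _ _ h, AR 6 _ (by decide) (by decide) h⟩]
  obtain ⟨H1, H2⟩ := reg_Gr a2
  rw [Fintype.card_fin] at H1 H2
  have dL : ∀ x, rdeg (fun e => (G e ∧ ¬ A e) ∧ ¬ Gr H e) x = δ - rA - k' ∧
      rdeg (tr fun e => (G e ∧ ¬ A e) ∧ ¬ Gr H e) x = δ - rA - k' := by
    intro x
    have := sp AG x
    have := sp s3 x
    have := g1 x
    have := g2 x
    have := A1 x
    have := A2 x
    have := H1 x
    have := H2 x
    omega
  have t1 := hrob _ (δ - rA - k') (by omega) ⟨fun x => (dL x).1, fun x => (dL x).2⟩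
    (fun x h => hG x h.1.1) (fun e h => h.1.2) (fun e h =>
      ⟨⟨hRG _ e h, AR 3 e (by decide) (by decide) h⟩, by
        obtain ⟨x, y⟩ := e
        rintro ⟨j, hj⟩
        obtain rfl : H j x = y := hj
        rcases a3 j x with h' | h' | h' | h'
        exacts [h'.2 (P3 _ h), dj 3 4 _ (by decide) h h', dj 3 5 _ (by decide) h h',
          dj 3 6 _ (by decide) h h']⟩)
  have t2 : Tgt k' (Gr H) := ⟨H, a1, a2, fun j x => ⟨j, rfl⟩⟩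
  refine (t1.add t2 (fun e h h' => h.elim (s3 e h').2 fun a => a.2 h')
    (fun e h => h.elim (AG e) fun a => a.1.1) fun e h => (s3 e h).1).le (by omega)

end Pool.Agent.P.MP_de899d_pr.RG
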