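import Pool.Agent.P.MP_de899d_pr.Base2

/-! Hamilton decompositions of regular digraphs that are dense between large sets: the steps. -/

set_option autoImplicit false
set_option linter.unusedSectionVars false

namespace Pool.Agent.P.MP_de899d_pr.RG
open Finset Equiv

section defs
variable {V : Type} [Fintype V] [DecidableEq V]

/-- The seven reserved subgraphs: `0` pool of the absorbers, `1` host of the factors,
`2` blown-up classes, `3` chords, `4, 5, 6` reservoirs. -/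
structure St4 (Y Z r1 : ℕ) (cT cH : V → Fin 16) (R : Fin 7 → V × V → Prop) : Prop where
  irr : ∀ i, Irr (R i)
  disj : ∀ i j e, R i e → R j e → i = j
  den0 : Den (R 0) (20 * Y) (Y ^ 104 * Z)
  den1 : Den (R 1) (20 * Y) (Y ^ 104 * Z)
  den2 : Den (R 2) (8 * Y ^ 16) (Y ^ 104 * Z)
  den3 : Den (R 3) (8 * Y ^ 51) (Y ^ 104 * Z)
  den4 : Den (R 4) (8 * Y ^ 51) (Y ^ 104 * Z)
  deg0 : ∀ a, DegIn (R 0) (fib cT a) (Y ^ 257 * Z)
  r1lo : Y ^ 245 * Z ≤ 40 * r1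
  r1hi : r1 ≤ Y ^ 245 * Z
  row2 : ∀ x, r1 + Y ^ 227 * Z ≤ eN (R 2) {x} (fib cH (cT x)) ∧
    eN (R 2) {x} (fib cH (cT x)) ≤ r1 + 4 * (Y ^ 227 * Z)
  col2 : ∀ y, r1 + Y ^ 227 * Z ≤ eN (R 2) (fib cT (cH y)) {y} ∧
    eN (R 2) (fib cT (cH y)) {y} ≤ r1 + 4 * (Y ^ 227 * Z)
  deg3 : ∀ i, 3 ≤ i → ∀ x, Y ^ 210 * Z ≤ 2 * rdeg (R i) x ∧ rdeg (R i) x ≤ 2 * (Y ^ 210 * Z) ∧
    Y ^ 210 * Z ≤ 2 * rdeg (tr (R i)) x ∧ rdeg (tr (R i)) x ≤ 2 * (Y ^ 210 * Z)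

/-- Every vertex has `d / 16` out- and in-neighbours in `Q`, up to `E / 16`. -/
def Spl (G : V × V → Prop) (d E : ℕ) (Q : Finset V) : Prop :=
  ∀ x, (d ≤ 16 * eN G {x} Q + E ∧ 16 * eN G {x} Q ≤ d + E) ∧
    d ≤ 16 * eN G Q {x} + E ∧ 16 * eN G Q {x} ≤ d + E

end defs

/-- Classes that split all neighbourhoods evenly. -/
def S_CLS : Prop := ∀ (V : Type) [Fintype V] [DecidableEq V] (Y Z d : ℕ) (G : V × V → Prop),
  10 ^ 20 ≤ Y → 0 < Z → Y ^ 260 * Z ≤ Fintype.card V → Fintype.card V ≤ 2 * (Y ^ 260 * Z) →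
  Reg G d → ∃ cT cH : V → Fin 16, Clu cT cH (Fintype.card V / 16) ∧
    ∀ a, Spl G d (Y ^ 200 * Z) (fib cT a) ∧ Spl G d (Y ^ 200 * Z) (fib cH a)

/-- A random subgraph keeps the density. -/
def S_THIN : Prop := ∀ (V A : Type) [Fintype V] [DecidableEq V] [Fintype A] [Nonempty A]
  (G : V × V → Prop) (P : A → Prop) (Y q β : ℕ) (t : ℝ), 0 < Y → 0 < t → Den G Y β →
  2 * (Y : ℝ) ≤ q * Pr P → 16 * t * Y ≤ Pr P * β → Fintype.card V * Real.exp (-t) ≤ 1 →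
  Pr (fun U : V × V → A => ¬ Den (fun e => G e ∧ P (U e)) q β) ≤
    4 * (Fintype.card V * Real.exp (-t))

/-- The reserved subgraphs exist. -/
def S_SPLIT : Prop := ∀ (V : Type) [Fintype V] [DecidableEq V] (Y Z d : ℕ) (G : V × V → Prop)
  (cT cH : V → Fin 16), 10 ^ 20 ≤ Y → 0 < Z → Y ^ 260 * Z ≤ Fintype.card V →
  Fintype.card V ≤ 2 * (Y ^ 260 * Z) → Irr G → Reg G d → Y ^ 259 * Z ≤ d →
  Den G Y (Y ^ 104 * Z) →
  (∀ a, Spl G d (Y ^ 200 * Z) (fib cT a) ∧ Spl G d (Y ^ 200 * Z) (fib cH a)) →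
  ∃ (r1 : ℕ) (R : Fin 7 → V × V → Prop), St4 Y Z r1 cT cH R ∧ ∀ i e, R i e → G e

/-- A robustly decomposable subgraph. -/
def S_RD4 : Prop := ∀ (V : Type) [Fintype V] [DecidableEq V] (Y Z r1 : ℕ) (cT cH : V → Fin 16)
  (R : Fin 7 → V × V → Prop), 10 ^ 20 ≤ Y → 0 < Z → Y ^ 260 * Z ≤ Fintype.card V →
  Fintype.card V ≤ 2 * (Y ^ 260 * Z) → Clu cT cH (Fintype.card V / 16) → St4 Y Z r1 cT cH R →
  ∃ (A : V × V → Prop) (rA : ℕ), (∀ e, A e → R 0 e ∨ R 2 e) ∧ Reg A rA ∧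
    rA ≤ 48 * (Y ^ 245 * Z) ∧
    ∀ (L : V × V → Prop) (r : ℕ), r ≤ Y ^ 211 * Z → Reg L r → Irr L → (∀ e, L e → ¬ A e) →
      (∀ e, R 3 e → L e) → Tgt (rA + r) fun e => A e ∨ L e

/-- Both tails of a binomial count. -/
theorem dev {ι α : Type} [Fintype ι] [DecidableEq ι] [Fintype α] [Nonempty α] (S : Finset ι)
    (P : α → Prop) {D N : ℝ} (hD : 0 < D) (hN : (#S : ℝ) ≤ N) :
    Pr (fun U : ι → α => (cnt S (fun _ => P) U : ℝ) ≤ Pr P * #S - D ∨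
      Pr P * #S + D ≤ cnt S (fun _ => P) U) ≤ 2 * Real.exp (-(D ^ 2 / (2 * N))) := by
  classical
  have low : ∀ P : α → Prop, Pr (fun U : ι → α => (cnt S (fun _ => P) U : ℝ) ≤ Pr P * #S - D) ≤
      Real.exp (-(D ^ 2 / (2 * N))) := fun P => by
    have hp0 := Pr_nonneg P
    have hp1 := Pr_le_one P
    have hS : (0 : ℝ) ≤ #S := by positivity
    rcases (show (0 : ℝ) ≤ Pr P * #S by positivity).eq_or_lt with h | h
    · rw [Pr_false]
      · positivity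
      · intro U hU
        have : (0 : ℝ) ≤ cnt S (fun _ => P) U := by positivity
        linarith
    · refine (Pr_lower_gauss S (fun _ => P) hD.le h (by simp [mul_comm])).trans ?_
      have h1 : Pr P * #S ≤ N := by nlinarith
      apply Real.exp_le_exp.mpr
      apply neg_le_neg
      apply div_le_div_of_nonneg_left (by positivity) (by positivity)
      linarith
  have h1 := low P
  have h2 := low fun l => ¬ P l
  refine (Pr_le_add (E₁ := fun U : ι → α => (cnt S (fun _ => P) U : ℝ) ≤ Pr P * #S - D)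
    (E₂ := fun U : ι → α =>
      (cnt S (fun _ l => ¬ P l) U : ℝ) ≤ Pr (fun l => ¬ P l) * #S - D) ?_).trans (by linarith)
  intro U hU
  refine hU.imp id fun h => ?_
  have h3 : cnt S (fun _ => P) U + cnt S (fun _ l => ¬ P l) U = #S := by
    unfold cnt
    convert card_filter_add_card_filter_not (s := S) fun i => P (U i)
  have h4 : (cnt S (fun _ => P) U : ℝ) + cnt S (fun _ l => ¬ P l) U = #S := by exact_mod_cast h3
  rw [Pr_not]
  nlinarith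

theorem exp_big {y : ℝ} (hy : 10 ^ 20 ≤ y) : 10 ^ 7 * y ^ 260 ≤ Real.exp y := by
  have h0 : 0 < y := lt_of_lt_of_le (by positivity) hy
  have h1 := Real.pow_div_factorial_le_exp y h0.le 320
  have h2 : ((Nat.factorial 320 : ℕ) : ℝ) ≤ 320 ^ 320 := by exact_mod_cast Nat.factorial_le_pow 320
  have h3 : (10 : ℝ) ^ 7 * 320 ^ 320 ≤ y ^ 60 := by
    refine le_trans ?_ (pow_le_pow_left₀ (by positivity) hy 60)
    have : (320 : ℝ) ^ 320 ≤ (10 ^ 3) ^ 320 := pow_le_pow_left₀ (by norm_num) (by norm_num) 320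
    rw [← pow_mul] at this
    rw [← pow_mul]
    calc (10 : ℝ) ^ 7 * 320 ^ 320 ≤ 10 ^ 240 * 10 ^ (3 * 320) :=
          mul_le_mul (pow_le_pow_right₀ (by norm_num) (by norm_num)) this (by positivity)
            (by positivity)
      _ = 10 ^ (20 * 60) := by rw [← pow_add]
  refine le_trans ?_ h1
  rw [le_div_iff₀ (by exact_mod_cast Nat.factorial_pos 320)]
  have h4 : y ^ 320 = y ^ 60 * y ^ 260 := by rw [← pow_add]
  have h5 : 0 < y ^ 260 := by positivity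
  rw [h4]
  calc 10 ^ 7 * y ^ 260 * (Nat.factorial 320 : ℕ) ≤ 10 ^ 7 * y ^ 260 * 320 ^ 320 :=
        mul_le_mul_of_nonneg_left h2 (by positivity)
    _ = 10 ^ 7 * 320 ^ 320 * y ^ 260 := by ring
    _ ≤ y ^ 60 * y ^ 260 := mul_le_mul_of_nonneg_right h3 h5.le

/-- The union bound over the vertices. -/
theorem small {Y Z n : ℕ} (hY : 10 ^ 20 ≤ Y) (hZ : 0 < Z) (hn : n ≤ 2 * (Y ^ 260 * Z)) :
    10 ^ 6 * ((n : ℝ) * Real.exp (-((Y : ℝ) * Z))) ≤ 1 := by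
  have hy : (10 : ℝ) ^ 20 ≤ Y := by exact_mod_cast hY
  have hz : (1 : ℝ) ≤ Z := by exact_mod_cast hZ
  have h0 : (0 : ℝ) < Y := lt_of_lt_of_le (by positivity) hy
  have h1 := exp_big (y := (Y : ℝ) * Z) (by nlinarith)
  have h2 : (n : ℝ) ≤ 2 * ((Y : ℝ) ^ 260 * Z) := by exact_mod_cast hn
  have h3 : (Z : ℝ) ≤ Z ^ 260 := le_self_pow₀ hz (by norm_num)
  have h4 := mul_le_mul_of_nonneg_left h3 (pow_pos h0 260).le
  rw [mul_pow] at h1
  rw [Real.exp_neg, ← div_eq_mul_inv, ← mul_div_assoc, div_le_one (Real.exp_pos _)]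
  have h5 : (0 : ℝ) ≤ (Y : ℝ) ^ 260 * Z := by positivity
  linarith

/-- The deviation used for all degrees. -/
theorem dev190 {Y Z n : ℕ} (hY : 10 ^ 20 ≤ Y) (hZ : 0 < Z) (h0 : 0 < n)
    (hn : n ≤ 2 * (Y ^ 260 * Z)) :
    Real.exp (-(((Y : ℝ) ^ 190 * Z) ^ 2 / (2 * n))) ≤ Real.exp (-((Y : ℝ) * Z)) := by
  have hy : (10 : ℝ) ^ 20 ≤ Y := by exact_mod_cast hY
  have hz : (0 : ℝ) < Z := by exact_mod_cast hZ
  have h1 : (4 : ℝ) ≤ Y := le_trans (by norm_num) hy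
  have h2 : (n : ℝ) ≤ 2 * ((Y : ℝ) ^ 260 * Z) := by exact_mod_cast hn
  have h3 : (0 : ℝ) < n := by exact_mod_cast h0
  apply Real.exp_le_exp.mpr
  apply neg_le_neg
  rw [le_div_iff₀ (by positivity)]
  have h4 : (4 : ℝ) ≤ (Y : ℝ) ^ 119 := h1.trans (le_self_pow₀ (by linarith) (by norm_num))
  calc (Y : ℝ) * Z * (2 * n) ≤ Y * Z * (2 * (2 * ((Y : ℝ) ^ 260 * Z))) := by gcongr
    _ = 4 * ((Y : ℝ) ^ 261 * Z ^ 2) := by ring
    _ ≤ (Y : ℝ) ^ 119 * ((Y : ℝ) ^ 261 * Z ^ 2) := by gcongr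
    _ = _ := by ring

/-- Comparison of the scales. -/
theorem pw {Y : ℕ} (hY : 10 ^ 20 ≤ Y) (Z c i j : ℕ) (hc : c ≤ 10 ^ 20) (h : i < j) :
    c * (Y ^ i * Z) ≤ Y ^ j * Z := by
  rw [← mul_assoc]
  refine Nat.mul_le_mul_right _ ?_
  calc c * Y ^ i ≤ Y * Y ^ i := Nat.mul_le_mul_right _ (hc.trans hY)
    _ = Y ^ (i + 1) := by rw [pow_succ, mul_comm]
    _ ≤ Y ^ j := Nat.pow_le_pow_right (lt_of_lt_of_le (by norm_num) hY) h

theorem pz (Y : ℕ) {Z : ℕ} (hZ : 0 < Z) (i : ℕ) : Y ^ i ≤ Y ^ i * Z := Nat.le_mul_of_pos_right _ hZ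

end Pool.Agent.P.MP_de899d_pr.RG
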