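import Pool.Agent.P.MP_de899d_pr.RG.Ifc
import Pool.Agent.P.MP_de899d_pr.RD

/-! The robustly decomposable subgraph at an arbitrary scale. -/

set_option autoImplicit false
set_option linter.unusedSectionVars false
set_option linter.unusedVariables false

namespace Pool.Agent.P.MP_de899d_pr.RG
open Finset Equiv

variable {V : Type} [Fintype V] [DecidableEq V]

/-- The blown-up classes: a regular subgraph that is dense inside every class. -/
theorem blow4 (hreg : S_REG) {Y Z r1 m : ℕ} {cT cH : V → Fin 16} {R : Fin 7 → V × V → Prop}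
    (hY : 10 ^ 20 ≤ Y) (hZ : 0 < Z) (hc : Clu cT cH m) (hS : St4 Y Z r1 cT cH R) :
    ∃ A1 : V × V → Prop, (∀ e, A1 e → R 2 e ∧ cT e.1 = cH e.2) ∧ Reg A1 r1 ∧
      ∀ a (X W : Finset V), X ⊆ fib cT a → W ⊆ fib cH a → 160 * (Y ^ 243 * Z) ≤ #X →
        160 * (Y ^ 243 * Z) ≤ #W → #X * #W ≤ 16 * Y ^ 16 * eN A1 X W := by
  have hY0 : 0 < Y := lt_of_lt_of_le (by norm_num) hY
  have hden : ∀ a (X W : Finset V), X ⊆ fib cT a → W ⊆ fib cH a → Y ^ 104 * Z ≤ #X →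
      Y ^ 104 * Z ≤ #W → #X * #W ≤ 8 * Y ^ 16 * eN (fun e => R 2 e ∧ cT e.1 = cH e.2) X W :=
    fun a X W hX hW h1 h2 => (hS.den2 X W h1 h2).trans
      (Nat.mul_le_mul_left _ (RD.eN_cls cT cH _ hX hW))
  have p1 := pw hY Z 1 104 243 (by norm_num) (by norm_num)
  have p2 := pw hY Z 1 227 243 (by norm_num) (by norm_num)
  have p3 := pw hY Z 6000 243 245 (by norm_num) (by norm_num)
  have hlo := hS.r1lo
  obtain ⟨M, hM1, hM2⟩ := hreg V (Fin 16) cT cH (fun e => R 2 e ∧ cT e.1 = cH e.2) r1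
    (Y ^ 227 * Z) (32 * (Y ^ 243 * Z)) (fun e he => he.2) hc.eq
    (fun x => by rw [RD.rdeg_cls]; exact hS.row2 x)
    (fun y => by rw [RD.rdeg_tr_cls]; exact hS.col2 y)
    (fun a X W hX hW h1 h2 => by
      have h3 := hden a X W hX hW (by omega) (by omega)
      have h4 : 32 * (Y ^ 243 * Z) * min #X #W ≤ #X * #W := by
        rcases le_total #X #W with h | h
        · rw [min_eq_left h, mul_comm #X]
          exact Nat.mul_le_mul_right _ h2
        · rw [min_eq_right h]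
          exact Nat.mul_le_mul_right _ h1
      refine Nat.le_of_mul_le_mul_left (le_trans (le_of_eq ?_) (h4.trans h3)) (by positivity)
      ring)
    (by omega)
  have hA : Reg (Gr M) r1 := by simpa using reg_Gr (H := M) hM1
  have hsub : ∀ e, Gr M e → R 2 e ∧ cT e.1 = cH e.2 := by
    rintro ⟨x, y⟩ ⟨j, hj⟩
    simp only at hj
    subst hj
    exact hM2 j x
  refine ⟨Gr M, hsub, hA, fun a X W hX hW h1 h2 => ?_⟩
  have h3 := den_remove (R' := Gr M)
    (Z := fun e => (R 2 e ∧ cT e.1 = cH e.2) ∧ ¬ Gr M e) (r := 4 * (Y ^ 227 * Z))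
    (hden a X W hX hW (by omega) (by omega)) (fun e he => by tauto)
    (fun x => by
      have h4 := rdeg_split (G := fun e => R 2 e ∧ cT e.1 = cH e.2) (G₁ := Gr M)
        (G₂ := fun e => (R 2 e ∧ cT e.1 = cH e.2) ∧ ¬ Gr M e)
        (fun e => by have := hsub e; tauto) (fun e he h => h.2 he) x
      rw [RD.rdeg_cls, hA.1 x] at h4
      have := (hS.row2 x).2
      omega)
    (by
      have : 2 * (8 * Y ^ 16) * (4 * (Y ^ 227 * Z)) = 64 * (Y ^ 243 * Z) := by ring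
      omega)
  exact h3.trans (le_of_eq (by ring))

theorem rd4 (habs : S_ABS) (hreg : S_REG) (hpiece : S_PIECE) (hcover : S_COVER) : S_RD4 := by
  intro V _ _ Y Z r1 cT cH R hY hZ hn1 hn2 hc hS
  have hY0 : 0 < Y := lt_of_lt_of_le (by norm_num) hY
  obtain ⟨m, hm⟩ : ∃ m, m = Fintype.card V / 16 := ⟨_, rfl⟩
  rw [← hm] at hc
  have hm1 : 10 ^ 6 * (Y ^ 259 * Z) ≤ m := by
    have := pw hY Z (16 * 10 ^ 6) 259 260 (by norm_num) (by norm_num)
    omega
  have hlo := hS.r1lo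
  have hhi := hS.r1hi
  have p1 := pw hY Z 160 227 245 (by norm_num) (by norm_num)
  obtain ⟨r2, hr2⟩ : ∃ r2, r1 = r2 + 4 * (Y ^ 227 * Z) := ⟨r1 - 4 * (Y ^ 227 * Z), by omega⟩
  have p2 := pw hY Z 1 104 246 (by norm_num) (by norm_num)
  have p3 := pw hY Z 1 1 246 (by norm_num) (by norm_num)
  have p3' := pz Y hZ 1
  have p4 := pw hY Z 1 245 246 (by norm_num) (by norm_num)
  have p5 := pw hY Z 20000 246 257 (by norm_num) (by norm_num)
  have p6 := pw hY Z 2457600 247 259 (by norm_num) (by norm_num)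
  have p7 := pw hY Z (8 * 1920 * 40 ^ 8) 254 259 (by norm_num) (by norm_num)
  have p8 := pw hY Z 8 0 259 (by norm_num) (by norm_num)
  rw [pow_one] at p3 p3'
  rw [pow_zero] at p8
  obtain ⟨Γ, hΓ1, hΓ2, hΓ3⟩ := habs V cT cH m (R 0) (20 * Y) (1920 * (Y ^ 246 * Z)) r2 hc
    (hS.irr 0) (hS.den0.mono (fun _ h => h) le_rfl (by omega)) (by omega)
    (calc 96 * (20 * Y) * r2 ≤ 96 * (20 * Y) * (Y ^ 245 * Z) := Nat.mul_le_mul_left _ (by omega)
      _ = 1920 * (Y ^ 246 * Z) := by ring)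
    (by omega) (fun a => RD.degIn_mono (hS.deg0 a) (by omega))
    (by
      have : 64 * (20 * Y) * (1920 * (Y ^ 246 * Z)) = 2457600 * (Y ^ 247 * Z) := by ring
      omega)
    (by
      have : 8 * (1920 * (Y ^ 246 * Z)) * (2 * (20 * Y)) ^ 8 =
        8 * 1920 * 40 ^ 8 * (Y ^ 254 * Z) := by ring
      omega)
  obtain ⟨A1, hA1, hA2, hA3⟩ := blow4 hreg hY hZ hc hS
  have hΓA : ∀ e, Γ e → ¬ A1 e := fun e h1 h2 =>
    absurd (hS.disj 0 2 e (hΓ1 e h1) (hA1 e h2).1) (by decide)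
  refine ⟨fun e => Γ e ∨ A1 e, 47 * r2 + r1,
    fun e he => he.imp (hΓ1 e) fun h => (hA1 e h).1, ⟨fun x => ?_, fun y => ?_⟩, by omega,
    fun L r hr hL hI hLA hL3 => ?_⟩
  · rw [rdeg_split (fun _ => Iff.rfl) hΓA, hΓ2.1, hA2.1]
  · rw [rdeg_tr_split (fun _ => Iff.rfl) hΓA, hΓ2.2, hA2.2]
  have q1 := pw hY Z 1 211 227 (by norm_num) (by norm_num)
  have q2 := pw hY Z 1 104 259 (by norm_num) (by norm_num)
  have q3 := pw hY Z 32 0 244 (by norm_num) (by norm_num)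
  have q4 := pw hY Z 1 227 243 (by norm_num) (by norm_num)
  have q4' := pw hY Z 2000 243 244 (by norm_num) (by norm_num)
  have q5 := pw hY Z 70000 244 245 (by norm_num) (by norm_num)
  have q6 := pw hY Z 9 244 259 (by norm_num) (by norm_num)
  have q7 : 0 < Y ^ 227 * Z := by positivity
  rw [pow_zero] at q3
  obtain ⟨χ, hχ⟩ := hpiece V (Fin 16) cT cH L r (4 * (Y ^ 227 * Z) + r) (Y ^ 244 * Z) (by omega)
    (fun x => (hL.1 x).le) (fun y => (hL.2 y).le)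
    (fun a => by rw [RD.eN_reg_row hL, RD.eN_reg_col hL, hc.eq])
    (fun a a' => by
      have h1 := (hc.size a).1
      have h2 := (hc.size a').1
      rw [hc.eq a'] at h2
      have h3 := hS.den3 (fib cT a) (fib cH a') (by omega) (by omega)
      have h4 := eN_mono hL3 (fib cT a) (fib cH a')
      by_contra h5
      have h6 : eN L (fib cT a) (fib cH a') ≤ 8 * (Y ^ 211 * Z) * (Y ^ 244 * Z) :=
        (not_lt.1 h5).trans (Nat.mul_le_mul_right _ (by omega))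
      have h7 : Y ^ 259 * Z * (Y ^ 259 * Z) ≤ #(fib cT a) * #(fib cH a') :=
        Nat.mul_le_mul (by omega) (by omega)
      have h8 := h7.trans (h3.trans (Nat.mul_le_mul_left _ (h4.trans h6)))
      have h9 := Nat.mul_le_mul_left (Y ^ 259 * Z)
        (pw hY Z 65 247 259 (by norm_num) (by norm_num))
      have h10 : 8 * Y ^ 51 * (8 * (Y ^ 211 * Z) * (Y ^ 244 * Z)) =
        64 * (Y ^ 259 * Z * (Y ^ 247 * Z)) := by ring
      have h11 : Y ^ 259 * Z * (65 * (Y ^ 247 * Z)) = 65 * (Y ^ 259 * Z * (Y ^ 247 * Z)) := by ring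
      have h12 : 0 < Y ^ 259 * Z * (Y ^ 247 * Z) := by positivity
      omega)
    (by
      rw [RD.eN_reg_row hL, card_univ, Fintype.card_fin]
      have h1 : Fintype.card V * r ≤ 2 * (Y ^ 260 * Z) * (Y ^ 211 * Z) := Nat.mul_le_mul hn2 hr
      have h2 : (4 * (Y ^ 227 * Z) + r) * 32 ≤ (4 * (Y ^ 227 * Z) + r) * (Y ^ 244 * Z) :=
        Nat.mul_le_mul_left _ (by omega)
      have h3 : 4 * (Y ^ 227 * Z) * (Y ^ 244 * Z) ≤ (4 * (Y ^ 227 * Z) + r) * (Y ^ 244 * Z) :=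
        Nat.mul_le_mul_right _ (by omega)
      have h4 : 4 * (Y ^ 227 * Z) * (Y ^ 244 * Z) = 2 * (2 * (Y ^ 260 * Z) * (Y ^ 211 * Z)) := by
        ring
      omega)
  obtain ⟨H, hH1, hH2, hH3, hH4⟩ := hcover V cT cH m A1 L _ χ r1 (16 * Y ^ 16)
    (160 * (Y ^ 243 * Z)) (Y ^ 244 * Z) hc
    (fun e he => ⟨(hA1 e he).2, fun h => hLA e h (Or.inr he)⟩) hI
    (fun x => (hA2.1 x).ge) (fun y => (hA2.2 y).ge) hA3 hχ (by omega) (by positivity)
    (calc 2 * (16 * Y ^ 16) * (4 * (Y ^ 227 * Z) + r) ≤ 2 * (16 * Y ^ 16) * (5 * (Y ^ 227 * Z)) :=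
        Nat.mul_le_mul_left _ (by omega)
      _ = 160 * (Y ^ 243 * Z) := by ring)
    (by omega)
    (by
      have : 32 * (16 * Y ^ 16) * (160 * (Y ^ 243 * Z)) = 81920 * (Y ^ 259 * Z) := by ring
      omega)
    (by omega)
  have hG : Reg (Gr H) (4 * (Y ^ 227 * Z) + r) := by simpa using reg_Gr (H := H) hH2
  have hG1 : ∀ e, Gr H e → L e ∨ A1 e := by
    rintro ⟨x, y⟩ ⟨j, hj⟩
    simp only at hj
    subst hj
    exact hH4 j x
  have hG2 : ∀ e, L e → Gr H e := fun e he => ⟨χ e, hH3 e he⟩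
  have s1 : ∀ e, A1 e ↔ (A1 e ∧ ¬ Gr H e) ∨ (A1 e ∧ Gr H e) := fun e => by tauto
  have s2 : ∀ e, A1 e ∧ ¬ Gr H e → ¬ (A1 e ∧ Gr H e) := fun e => by tauto
  have s3 : ∀ e, Gr H e ↔ L e ∨ (A1 e ∧ Gr H e) := fun e => by
    have := hG1 e
    have := hG2 e
    tauto
  have s4 : ∀ e, L e → ¬ (A1 e ∧ Gr H e) := fun e h1 h2 => hLA e h1 (Or.inr h2.1)
  have hN : Reg (fun e => A1 e ∧ ¬ Gr H e) r2 := by
    refine ⟨fun x => ?_, fun y => ?_⟩
    · have a1 := rdeg_split s1 s2 x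
      have a2 := rdeg_split s3 s4 x
      rw [hA2.1] at a1
      rw [hG.1, hL.1] at a2
      omega
    · have a1 := rdeg_tr_split s1 s2 y
      have a2 := rdeg_tr_split s3 s4 y
      rw [hA2.2] at a1
      rw [hG.2, hL.2] at a2
      omega
  have t1 := hΓ3 _ (fun e he => ⟨(hA1 e he.1).2, fun h => hΓA e h he.1⟩) hN
  have t2 : Tgt (4 * (Y ^ 227 * Z) + r) (Gr H) := ⟨H, hH1, hH2, fun j x => ⟨j, rfl⟩⟩
  refine (t1.add t2 (Γ := fun e => (Γ e ∨ A1 e) ∨ L e) ?_ ?_ ?_).le (by omega)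
  · rintro e (h | h) h'
    · rcases hG1 e h' with h2 | h2
      · exact hLA e h2 (Or.inl h)
      · exact hΓA e h h2
    · exact h.2 h'
  · rintro e (h | h)
    · exact Or.inl (Or.inl h)
    · exact Or.inl (Or.inr h.1)
  · intro e h
    rcases hG1 e h with h2 | h2
    · exact Or.inr h2
    · exact Or.inl (Or.inr h2)

end Pool.Agent.P.MP_de899d_pr.RG
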