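import Pool.Agent.P.MP_de899d_pr.RG.Ifc

/-! The seven reserved subgraphs of a regular digraph exist. -/

set_option autoImplicit false
set_option linter.unusedSectionVars false

namespace Pool.Agent.P.MP_de899d_pr.RG
open Finset Equiv

namespace SPLITx

/-- Disjoint events with prescribed probabilities. -/
theorem labels (s : Fin 7 → ℕ) {M : ℕ} (h : ∑ i, s i ≤ M) (hM : 0 < M) :
    ∃ (A : Type) (_ : Fintype A) (_ : Nonempty A) (P : Fin 7 → A → Prop),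
      (∀ i j l, P i l → P j l → i = j) ∧ ∀ i, Pr (P i) * M = s i := by
  classical
  have hc : Fintype.card ((Σ i : Fin 7, Fin (s i)) ⊕ Fin (M - ∑ i, s i)) = M := by
    simp only [Fintype.card_sum, Fintype.card_sigma, Fintype.card_fin]
    omega
  refine ⟨(Σ i : Fin 7, Fin (s i)) ⊕ Fin (M - ∑ i, s i), inferInstance,
    Fintype.card_pos_iff.1 (hc.symm ▸ hM), fun i l => ∃ k, l = .inl ⟨i, k⟩, ?_, fun i => ?_⟩
  · rintro i j l ⟨k, rfl⟩ ⟨k', e⟩
    exact congrArg Sigma.fst (Sum.inl_injective e)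
  · have hM' : (M : ℝ) ≠ 0 := by exact_mod_cast hM.ne'
    rw [Pr_eq_card, hc, div_mul_cancel₀ _ hM']
    have e : (univ.filter fun l : (Σ i : Fin 7, Fin (s i)) ⊕ Fin (M - ∑ i, s i) =>
        ∃ k, l = .inl ⟨i, k⟩) = univ.image fun k : Fin (s i) => .inl ⟨i, k⟩ := by
      ext l
      simp [eq_comm]
    rw [e, card_image_of_injective _ fun k k' e => by simpa using e]
    simp

theorem ex_good {Ω : Type} [Fintype Ω] [Nonempty Ω] {E : Ω → Prop} (h : Pr E < 1) :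
    ∃ ω, ¬ E ω := by
  by_contra hc
  have := Pr_not E
  rw [Pr_false fun ω h => hc ⟨ω, h⟩] at this
  linarith

theorem pr {Y : ℕ} (hY : 10 ^ 20 ≤ Y) (Z i j : ℕ) (h : i < j) :
    1000 * ((Y : ℝ) ^ i * Z) ≤ (Y : ℝ) ^ j * Z := by
  exact_mod_cast pw hY Z 1000 i j (by norm_num) h

theorem band {p d y z : ℝ} {a b : ℕ} (hy : 0 < y) (hz : 0 < z) (hp : 0 ≤ p)
    (hn : d ≤ 2 * (y ^ (a + b) * z)) (h : p * d = y ^ a * z) :
    1 ≤ ((2 : ℕ) : ℝ) * y ^ b * p := by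
  have h1 := mul_le_mul_of_nonneg_left hn hp
  have h2 : 0 < y ^ a * z := by positivity
  rw [h, pow_add] at h1
  push_cast
  refine le_of_mul_le_mul_left ?_ h2
  linarith

variable {V A : Type} [Fintype V] [DecidableEq V] [Fintype A] [Nonempty A]

/-- The count in a block deviates from its mean. -/
def Dev (G : V × V → Prop) (P : A → Prop) (X Z : Finset V) (D : ℝ) (U : V × V → A) : Prop :=
  (eN (fun e => G e ∧ P (U e)) X Z : ℝ) ≤ Pr P * eN G X Z - D ∨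
    Pr P * eN G X Z + D ≤ eN (fun e => G e ∧ P (U e)) X Z

theorem Pr_Dev (G : V × V → Prop) (P : A → Prop) (X Z : Finset V) {D N : ℝ} (hD : 0 < D)
    (hN : (eN G X Z : ℝ) ≤ N) : Pr (Dev G P X Z D) ≤ 2 * Real.exp (-(D ^ 2 / (2 * N))) := by
  classical
  refine le_trans (Pr_mono fun U hU => ?_) (dev ((X ×ˢ Z).filter G) P hD hN)
  have e : cnt ((X ×ˢ Z).filter G) (fun _ => P) U = eN (fun e => G e ∧ P (U e)) X Z := by
    unfold cnt eN
    rw [filter_filter]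
    congr
  rw [e]
  exact hU

/-- The sets whose degrees are controlled. -/
def fam (cT cH : V → Fin 16) : Option (Fin 16 ⊕ Fin 16) → Finset V
  | none => univ
  | some (.inl a) => fib cT a
  | some (.inr a) => fib cH a

/-- No degree deviates. -/
theorem Pr_devs {G : V × V → Prop} {d Y Z : ℕ} (hG : Reg G d) (hd : d ≤ Fintype.card V)
    (cT cH : V → Fin 16) (P : Fin 7 → A → Prop) (hY : 10 ^ 20 ≤ Y) (hZ : 0 < Z)
    (hn0 : 0 < Fintype.card V) (hn : Fintype.card V ≤ 2 * (Y ^ 260 * Z)) :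
    Pr (fun U : V × V → A => ∃ c : Fin 7 × V × Option (Fin 16 ⊕ Fin 16),
      Dev G (P c.1) {c.2.1} (fam cT cH c.2.2) ((Y : ℝ) ^ 190 * Z) U ∨
        Dev G (P c.1) (fam cT cH c.2.2) {c.2.1} ((Y : ℝ) ^ 190 * Z) U) ≤
      924 * (Fintype.card V * Real.exp (-((Y : ℝ) * Z))) := by
  have hY0 : 0 < Y := lt_of_lt_of_le (by norm_num) hY
  have hD : 0 < (Y : ℝ) ^ 190 * Z := by positivity
  have h1 := dev190 hY hZ hn0 hn
  refine (Pr_exists_univ _ (δ := 4 * Real.exp (-((Y : ℝ) * Z))) fun c => ?_).trans (le_of_eq ?_)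
  · have h2 := eN_sub G (Subset.refl {c.2.1}) (subset_univ (fam cT cH c.2.2))
    have h3 := eN_sub G (subset_univ (fam cT cH c.2.2)) (Subset.refl {c.2.1})
    rw [eN_row1, hG.1] at h2
    rw [eN_col1, hG.2] at h3
    have h6 := Pr_Dev G (P c.1) {c.2.1} (fam cT cH c.2.2) hD (N := Fintype.card V)
      (by exact_mod_cast h2.trans hd)
    have h7 := Pr_Dev G (P c.1) (fam cT cH c.2.2) {c.2.1} hD (N := Fintype.card V)
      (by exact_mod_cast h3.trans hd)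
    refine (Pr_or_le _ _).trans ?_
    linarith
  · simp only [Fintype.card_prod, Fintype.card_fin, Fintype.card_option, Fintype.card_sum]
    push_cast
    ring

/-- The density is kept. -/
theorem Pr_Den (h : S_THIN) {G : V × V → Prop} (P : A → Prop) {Y Z q : ℕ} (c k : ℕ)
    (hY : 10 ^ 20 ≤ Y) (hZ : 0 < Z) (hG : Den G Y (Y ^ 104 * Z)) (hc : c ≤ 5) (hk : k ≤ 50)
    (hp : 1 ≤ (c : ℝ) * Y ^ k * Pr P) (hq : q = 4 * c * Y ^ (k + 1))
    (h1 : Fintype.card V * Real.exp (-((Y : ℝ) * Z)) ≤ 1) :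
    Pr (fun U : V × V → A => ¬ Den (fun e => G e ∧ P (U e)) q (Y ^ 104 * Z)) ≤
      4 * (Fintype.card V * Real.exp (-((Y : ℝ) * Z))) := by
  have hY0 : 0 < Y := lt_of_lt_of_le (by norm_num) hY
  have h0 : (1 : ℝ) ≤ Y := by exact_mod_cast hY0
  have hc' : (c : ℝ) ≤ 5 := by exact_mod_cast hc
  have p0 := Pr_nonneg P
  refine h V A G P Y q _ _ hY0 (by positivity) hG ?_ ?_ h1
  · have := mul_le_mul_of_nonneg_left hp (show (0 : ℝ) ≤ 4 * Y by positivity)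
    rw [hq]
    push_cast
    rw [pow_succ]
    linarith
  · have h2 : (c : ℝ) * Y ^ k ≤ 5 * Y ^ 50 :=
      mul_le_mul hc' (pow_le_pow_right₀ h0 hk) (by positivity) (by norm_num)
    have h3 := hp.trans (mul_le_mul_of_nonneg_right h2 p0)
    have h4 := mul_le_mul_of_nonneg_left h3 (show (0 : ℝ) ≤ (Y : ℝ) ^ 54 * Z by positivity)
    have h5 := pr hY Z 2 54 (by norm_num)
    have h6 : (0 : ℝ) ≤ (Y : ℝ) ^ 2 * Z := by positivity
    have e : (Y : ℝ) ^ 54 * Z * (5 * Y ^ 50 * Pr P) = 5 * (Pr P * (Y ^ 104 * Z)) := by ring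
    have e' : 16 * ((Y : ℝ) * Z) * Y = 16 * (Y ^ 2 * Z) := by ring
    push_cast
    linarith

theorem dev_iff {G : V × V → Prop} {P : A → Prop} {X Z : Finset V} {D : ℝ} {U : V × V → A}
    (h : ¬ Dev G P X Z D U) : Pr P * eN G X Z - D ≤ eN (fun e => G e ∧ P (U e)) X Z ∧
      (eN (fun e => G e ∧ P (U e)) X Z : ℝ) ≤ Pr P * eN G X Z + D := by
  unfold Dev at h
  push Not at h
  exact ⟨h.1.le, h.2.le⟩

end SPLITx

open SPLITx in
theorem split (h : S_THIN) : S_SPLIT := by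
  intro V _ _ Y Z d G cT cH hY hZ hn1 hn2 hI hG hd hD hS
  have hY0 : 0 < Y := lt_of_lt_of_le (by norm_num) hY
  have h0 : (0 : ℝ) < Y := by exact_mod_cast hY0
  have hz : (0 : ℝ) < Z := by exact_mod_cast hZ
  have hn0 : 0 < Fintype.card V := lt_of_lt_of_le (by positivity) hn1
  have hd0 : 0 < d := lt_of_lt_of_le (by positivity) hd
  have hdn : d ≤ Fintype.card V := by
    classical
    obtain ⟨x⟩ := Fintype.card_pos_iff.1 hn0
    rw [← hG.1 x]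
    exact card_le_univ _
  obtain ⟨A, _, _, P, hdis, hP⟩ := labels ![d, d, 5 * (Y ^ 245 * Z), 5 * (Y ^ 210 * Z),
      5 * (Y ^ 210 * Z), 5 * (Y ^ 210 * Z), 5 * (Y ^ 210 * Z)] (M := 5 * d) (by
    have a1 := pw hY Z 5 245 259 (by norm_num) (by norm_num)
    have a2 := pw hY Z 20 210 259 (by norm_num) (by norm_num)
    simp only [Fin.sum_univ_succ, Fin.sum_univ_zero, Matrix.cons_val_zero, Matrix.cons_val_succ]
    omega) (by omega)
  have hd0' : (0 : ℝ) < d := by exact_mod_cast hd0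
  have hd1 : (Y : ℝ) ^ 259 * Z ≤ d := by exact_mod_cast hd
  have hd2 : (d : ℝ) ≤ 2 * ((Y : ℝ) ^ 260 * Z) := by exact_mod_cast hdn.trans hn2
  have hp01 : ∀ i, Pr (P i) * ((5 * d : ℕ) : ℝ) = d → 5 * Pr (P i) = 1 := fun i e => by
    push_cast at e
    exact mul_right_cancel₀ hd0'.ne' (by linarith)
  have hp0 := hp01 0 (hP 0)
  have hp1 := hp01 1 (hP 1)
  have hp2 : Pr (P 2) * d = (Y : ℝ) ^ 245 * Z := by
    have e : Pr (P 2) * ((5 * d : ℕ) : ℝ) = ((5 * (Y ^ 245 * Z) : ℕ) : ℝ) := hP 2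
    push_cast at e
    linarith
  have hp3 : ∀ i, 3 ≤ i → Pr (P i) * d = (Y : ℝ) ^ 210 * Z := fun i hi => by
    have e : Pr (P i) * ((5 * d : ℕ) : ℝ) = ((5 * (Y ^ 210 * Z) : ℕ) : ℝ) := by
      rw [hP i]
      fin_cases i <;> first | rfl | exact absurd hi (by decide)
    push_cast at e
    linarith
  have hε := small hY hZ hn2
  have hε0 : 0 ≤ Fintype.card V * Real.exp (-((Y : ℝ) * Z)) := by positivity
  have hε1 : Fintype.card V * Real.exp (-((Y : ℝ) * Z)) ≤ 1 := by linarith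
  have d0 := Pr_Den h (P 0) (q := 20 * Y) 5 0 hY hZ hD le_rfl (by norm_num)
    (by push_cast; linarith) (by ring) hε1
  have d1 := Pr_Den h (P 1) (q := 20 * Y) 5 0 hY hZ hD le_rfl (by norm_num)
    (by push_cast; linarith) (by ring) hε1
  have d2 := Pr_Den h (P 2) (q := 8 * Y ^ 16) 2 15 hY hZ hD (by norm_num) (by norm_num)
    (band (a := 245) h0 hz (Pr_nonneg _) hd2 hp2) (by ring) hε1
  have d3 := Pr_Den h (P 3) (q := 8 * Y ^ 51) 2 50 hY hZ hD (by norm_num) le_rfl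
    (band (a := 210) h0 hz (Pr_nonneg _) hd2 (hp3 3 le_rfl)) (by ring) hε1
  have d4 := Pr_Den h (P 4) (q := 8 * Y ^ 51) 2 50 hY hZ hD (by norm_num) le_rfl
    (band (a := 210) h0 hz (Pr_nonneg _) hd2 (hp3 4 (by decide))) (by ring) hε1
  have d5 := Pr_devs hG hdn cT cH P hY hZ hn0 hn2
  obtain ⟨U, hB⟩ := ex_good (lt_of_le_of_lt ((Pr_or_le _ _).trans (add_le_add d5
    ((Pr_or_le _ _).trans (add_le_add d0 ((Pr_or_le _ _).trans (add_le_add d1
    ((Pr_or_le _ _).trans (add_le_add d2 ((Pr_or_le _ _).trans (add_le_add d3 d4))))))))))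
    (by linarith))
  simp only [not_or, not_exists, not_not] at hB
  obtain ⟨hdev, e0, e1, e2, e3, e4⟩ := hB
  have q0 := Pr_nonneg (P 2)
  have q1 := Pr_le_one (P 2)
  have w0 : (1 : ℝ) ≤ (Y : ℝ) ^ 190 * Z := by
    exact_mod_cast (show 0 < Y ^ 190 * Z by positivity)
  have w1 := pr hY Z 190 200 (by norm_num)
  have w2 := pr hY Z 200 210 (by norm_num)
  have w3 := pr hY Z 210 227 (by norm_num)
  have w4 := pr hY Z 227 245 (by norm_num)
  have w5 := pr hY Z 245 257 (by norm_num)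
  have w6 := pr hY Z 257 259 (by norm_num)
  obtain ⟨r1, hr1, hr2⟩ : ∃ r1 : ℕ, (r1 : ℝ) ≤ (Y : ℝ) ^ 245 * Z / 16 - 2 * ((Y : ℝ) ^ 227 * Z) ∧
      (Y : ℝ) ^ 245 * Z / 16 - 2 * ((Y : ℝ) ^ 227 * Z) < r1 + 1 :=
    ⟨_, Nat.floor_le (by linarith), Nat.lt_floor_add_one _⟩
  have mid : ∀ {s e : ℕ}, d ≤ 16 * s + Y ^ 200 * Z ∧ 16 * s ≤ d + Y ^ 200 * Z →
      Pr (P 2) * s - (Y : ℝ) ^ 190 * Z ≤ e ∧ (e : ℝ) ≤ Pr (P 2) * s + (Y : ℝ) ^ 190 * Z →
      r1 + Y ^ 227 * Z ≤ e ∧ e ≤ r1 + 4 * (Y ^ 227 * Z) := by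
    rintro s e ⟨a1, a2⟩ ⟨a3, a4⟩
    have a1' : (d : ℝ) ≤ 16 * s + (Y : ℝ) ^ 200 * Z := by exact_mod_cast a1
    have a2' : 16 * (s : ℝ) ≤ d + (Y : ℝ) ^ 200 * Z := by exact_mod_cast a2
    have a5 := mul_le_mul_of_nonneg_left a1' q0
    have a6 := mul_le_mul_of_nonneg_left a2' q0
    have a9 := mul_le_mul_of_nonneg_right q1 (show (0 : ℝ) ≤ (Y : ℝ) ^ 200 * Z by positivity)
    have a7 : (r1 : ℝ) + (Y : ℝ) ^ 227 * Z ≤ e := by linarith
    have a8 : (e : ℝ) ≤ r1 + 4 * ((Y : ℝ) ^ 227 * Z) := by linarith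
    exact ⟨by exact_mod_cast a7, by exact_mod_cast a8⟩
  have big : ∀ {s e : ℕ}, d ≤ 16 * s + Y ^ 200 * Z → Pr (P 0) * s - (Y : ℝ) ^ 190 * Z ≤ e →
      Y ^ 257 * Z ≤ e := by
    intro s e a1 a2
    have a1' : (d : ℝ) ≤ 16 * s + (Y : ℝ) ^ 200 * Z := by exact_mod_cast a1
    have a3 : 5 * Pr (P 0) * s = 1 * s := by rw [hp0]
    have a6 : (Y : ℝ) ^ 257 * Z ≤ e := by linarith
    exact_mod_cast a6
  have low : ∀ {e : ℕ}, (Y : ℝ) ^ 210 * Z - (Y : ℝ) ^ 190 * Z ≤ e ∧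
      (e : ℝ) ≤ (Y : ℝ) ^ 210 * Z + (Y : ℝ) ^ 190 * Z →
      Y ^ 210 * Z ≤ 2 * e ∧ e ≤ 2 * (Y ^ 210 * Z) := by
    rintro e ⟨a1, a2⟩
    have a3 : (Y : ℝ) ^ 210 * Z ≤ 2 * e := by linarith
    have a4 : (e : ℝ) ≤ 2 * ((Y : ℝ) ^ 210 * Z) := by linarith
    exact ⟨by exact_mod_cast a3, by exact_mod_cast a4⟩
  refine ⟨r1, fun i e => G e ∧ P i (U e), ⟨fun i x h => hI x h.1,
    fun i j e h h' => hdis i j _ h.2 h'.2, e0, e1, e2, e3, e4,
    fun a x => ⟨?_, ?_⟩, ?_, ?_, fun x => ?_, fun x => ?_, fun i hi x => ?_⟩, fun i e h => h.1⟩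
  · exact big ((hS a).1 x).1.1 (dev_iff (hdev (0, x, some (.inl a))).1).1
  · exact big ((hS a).1 x).2.1 (dev_iff (hdev (0, x, some (.inl a))).2).1
  · have : (Y : ℝ) ^ 245 * Z ≤ 40 * r1 := by linarith
    exact_mod_cast this
  · have : (r1 : ℝ) ≤ (Y : ℝ) ^ 245 * Z := by linarith
    exact_mod_cast this
  · exact mid ((hS _).2 x).1 (dev_iff (hdev (2, x, some (.inr (cT x)))).1)
  · exact mid ((hS _).1 x).2 (dev_iff (hdev (2, x, some (.inl (cH x)))).2)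
  · have a1 := dev_iff (hdev (i, x, none)).1
    have a2 := dev_iff (hdev (i, x, none)).2
    simp only [fam, eN_row1, eN_col1, hG.1 x, hG.2 x, hp3 i hi] at a1 a2
    exact ⟨(low a1).1, (low a1).2, low a2⟩

end Pool.Agent.P.MP_de899d_pr.RG
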