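import Pool.Agent.P.MP_de899d_pr.RG.Ifc
import Pool.Agent.P.MP_de899d_pr.St3

/-! A random subgraph of a dense digraph keeps the density. -/

set_option autoImplicit false
set_option linter.unusedSectionVars false

namespace Pool.Agent.P.MP_de899d_pr.RG
open Finset Equiv

namespace THINx

open Classical in
theorem eN_cnt {V A : Type} [Fintype V] [DecidableEq V] [Fintype A] [Nonempty A]
    (G : V × V → Prop) (P : A → Prop) (U : V × V → A) (X Z : Finset V) :
    eN (fun e => G e ∧ P (U e)) X Z = cnt ((X ×ˢ Z).filter G) (fun _ => P) U := by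
  unfold eN cnt
  congr 1
  ext e
  simp [and_assoc]

end THINx

theorem thin : S_THIN := by
  classical
  intro V A _ _ _ _ G P Y q β t hY ht hG hq hβ h1
  have hp0 := Pr_nonneg P
  have Y0 : (0 : ℝ) < Y := by exact_mod_cast hY
  have tY : 0 < 16 * t * Y := by positivity
  have hβ0 : 0 < β := by
    rcases Nat.eq_zero_or_pos β with h | h
    · rw [h] at hβ; simp at hβ; linarith
    · exact h
  have hp : 0 < Pr P := by
    rcases hp0.eq_or_lt with h | h
    · rw [← h] at hβ; linarith
    · exact h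
  obtain ⟨p, hpY⟩ : ∃ p : ℝ, Pr P = p * Y := ⟨Pr P / Y, by field_simp⟩
  have p0 : 0 < p := (mul_pos_iff_of_pos_right Y0).1 (hpY ▸ hp)
  have hq' : 2 ≤ q * p := le_of_mul_le_mul_right (by rw [mul_assoc, ← hpY]; exact hq) Y0
  have hβ' : 16 * t ≤ p * β := le_of_mul_le_mul_right (by rw [hpY] at hβ; linarith) Y0
  set r := Real.exp (-t) with hr
  have hr0 : 0 < r := Real.exp_pos _
  set J := (univ : Finset (Finset V)).erase ∅ with hJ
  refine (Pr_mono (E' := fun U : V × V → A => ∃ c ∈ J ×ˢ J, β ≤ #c.1 ∧ β ≤ #c.2 ∧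
    (eN (fun e => G e ∧ P (U e)) c.1 c.2 : ℝ) ≤ p * #c.1 * #c.2 - p * #c.1 * #c.2 / 2) ?_).trans
    ((Pr_exists_le _ _).trans ?_)
  · intro U hU
    unfold Den at hU
    push Not at hU
    obtain ⟨X, Z, hX, hZ, h⟩ := hU
    refine ⟨(X, Z), ?_, hX, hZ, ?_⟩
    · simp only [hJ, mem_product, mem_erase, mem_univ, and_true, ← nonempty_iff_ne_empty]
      exact ⟨card_pos.1 (by omega), card_pos.1 (by omega)⟩
    · have h' : (q : ℝ) * eN (fun e => G e ∧ P (U e)) X Z ≤ #X * #Z := by exact_mod_cast h.le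
      have h0 : (0 : ℝ) ≤ eN (fun e => G e ∧ P (U e)) X Z := by positivity
      have h2 := mul_le_mul_of_nonneg_left h' p0.le
      have h3 := mul_le_mul_of_nonneg_right hq' h0
      simp only
      nlinarith
  · refine (sum_le_sum (g := fun c : Finset V × Finset V => r ^ #c.1 * r ^ #c.2) ?_).trans ?_
    · rintro ⟨X, Z⟩ -
      simp only
      by_cases hXZ : β ≤ #X ∧ β ≤ #Z
      · have hX : (β : ℝ) ≤ #X := by exact_mod_cast hXZ.1
        have hZ : (β : ℝ) ≤ #Z := by exact_mod_cast hXZ.2
        have hb : (0 : ℝ) < β := by exact_mod_cast hβ0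
        have hX0 : (0 : ℝ) < #X := by linarith
        have hZ0 : (0 : ℝ) < #Z := by linarith
        have hμ : 0 < p * #X * #Z := by positivity
        refine (Pr_mono fun U hU => hU.2.2).trans ?_
        simp only [THINx.eN_cnt]
        refine (Pr_lower_gauss ((X ×ˢ Z).filter G) (fun _ => P) (by positivity) hμ ?_).trans ?_
        · have h2 : (#X * #Z : ℝ) ≤ Y * #((X ×ˢ Z).filter G) := by
            have := hG X Z hXZ.1 hXZ.2
            unfold eN at this
            exact_mod_cast this
          rw [sum_const, nsmul_eq_mul, hpY]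
          nlinarith [mul_le_mul_of_nonneg_left h2 p0.le]
        rw [hr, ← Real.exp_nat_mul, ← Real.exp_nat_mul, ← Real.exp_add]
        apply Real.exp_le_exp.mpr
        have e1 : (p * #X * #Z / 2) ^ 2 / (2 * (p * #X * #Z)) = p * #X * #Z / 8 := by
          field_simp; ring
        rw [e1]
        have a1 : 16 * t ≤ p * #X := hβ'.trans (mul_le_mul_of_nonneg_left hX p0.le)
        have a2 : 16 * t ≤ p * #Z := hβ'.trans (mul_le_mul_of_nonneg_left hZ p0.le)
        have a3 := mul_le_mul_of_nonneg_right a1 hZ0.le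
        have a4 := mul_le_mul_of_nonneg_right a2 hX0.le
        nlinarith
      · rw [Pr_false fun U hU => hXZ ⟨hU.1, hU.2.1⟩]
        positivity
    · rw [sum_product' J J fun X Z => r ^ #X * r ^ #Z, ← sum_mul_sum]
      have h2 := St3L.sum_pow_card (V := V) hr0.le h1
      have h3 : 0 ≤ ∑ X ∈ J, r ^ #X := sum_nonneg fun _ _ => by positivity
      have h4 : (0 : ℝ) ≤ Fintype.card V * r := by positivity
      nlinarith

end Pool.Agent.P.MP_de899d_pr.RG
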