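import Pool.Agent.P.MP_de899d_pr.RG.CLS
import Pool.Agent.P.MP_de899d_pr.RG.THIN
import Pool.Agent.P.MP_de899d_pr.RG.SPLIT
import Pool.Agent.P.MP_de899d_pr.RG.RD4
import Pool.Agent.P.MP_de899d_pr.RG.Den4
import Pool.Agent.P.MP_de899d_pr.Ext
import Pool.Agent.P.MP_de899d_pr.FF
import Pool.Agent.P.MP_de899d_pr.Hyp
import Pool.Agent.P.MP_de899d_pr.Apx
import Pool.Agent.P.MP_de899d_pr.Piece
import Pool.Agent.P.MP_de899d_pr.Cover
import Pool.Agent.P.MP_de899d_pr.Tog
import Pool.Agent.P.MP_de899d_pr.Tri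
import Pool.Agent.P.MP_de899d_pr.Stmt

/-! Regular and nearly regular digraphs that are dense between large sets. -/

set_option autoImplicit false
set_option linter.unusedSectionVars false

namespace Pool.Agent.P.MP_de899d_pr.RG
open Finset Equiv

variable {V : Type} [Fintype V] [DecidableEq V]

theorem deg_lb {G : V × V → Prop} {q β d : ℕ} (hD : Den G q β) (hβ : β ≤ Fintype.card V)
    (h0 : 0 < Fintype.card V) (h : ∀ x, rdeg G x ≤ d) : Fintype.card V ≤ q * d := by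
  have h1 := (hD univ univ hβ hβ).trans (Nat.mul_le_mul_left q (eN_le_rows h univ univ))
  rw [card_univ, ← mul_assoc] at h1
  exact Nat.le_of_mul_le_mul_right h1 h0

/-- The regular case. -/
theorem regular {Y Z d : ℕ} {G : V × V → Prop} (hY : 10 ^ 20 ≤ Y) (hZ : 0 < Z)
    (hn : Y ^ 260 * Z ≤ Fintype.card V) (hn' : Fintype.card V ≤ 2 * (Y ^ 260 * Z)) (hG : Irr G)
    (hR : Reg G d) (hD : Den G Y (Y ^ 104 * Z)) : Tgt d G := by
  have Y0 : 0 < Y := by omega
  have p := pw hY Z 1 104 260 (by norm_num) (by norm_num)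
  have q : 0 < Y ^ 104 * Z := by positivity
  have hd : Y ^ 259 * Z ≤ d := by
    have h1 := deg_lb hD (by omega) (by omega) fun x => (hR.1 x).le
    refine Nat.le_of_mul_le_mul_left (le_trans (le_of_eq ?_) (hn.trans h1)) Y0
    ring
  obtain ⟨cT, cH, hC, hs⟩ := cls clu V Y Z d G hY hZ hn hn' hR
  obtain ⟨r1, R, hS, hRG⟩ := split thin V Y Z d G cT cH hY hZ hn hn' hG hR hd hD hs
  exact den4 (apx ext reg hyp) (rd4 (absb (tri ext emb tog)) reg piece (cover ext)) hY hZ hn hn'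
    hC hS hG hRG hR hd

/-- Removing the excess degrees. -/
theorem trim4 {q β k r μ s : ℕ} {G : V × V → Prop} (hq : 0 < q)
    (h1 : ∀ x, k ≤ rdeg G x ∧ rdeg G x ≤ k + r)
    (h2 : ∀ y, k ≤ rdeg (tr G) y ∧ rdeg (tr G) y ≤ k + r)
    (h3 : #(univ.filter fun x => rdeg G x < k + μ) ≤ s)
    (h4 : #(univ.filter fun y => rdeg (tr G) y < k + μ) ≤ s)
    (h6 : r * β + μ * (r + s) ≤ μ * k) (h7 : 2 * q * r ≤ β) (h8 : Den G q β) :
    ∃ F : V × V → Prop, (∀ e, F e → G e) ∧ Reg F k ∧ Den F (2 * q) β := by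
  have fu : ∀ a : Unit, fib (fun _ : V => ()) a = univ := fun a => by simp [fib]
  obtain ⟨Z, z1, z2, z3⟩ := ff V Unit (fun _ => ()) (fun _ => ()) G (fun x => rdeg G x - k)
    (fun y => rdeg (tr G) y - k) r μ s β k (fun _ _ => rfl)
    (fun a => by
      rw [fu, sum_tsub_distrib _ fun x _ => (h1 x).1, sum_tsub_distrib _ fun x _ => (h2 x).1,
        ← eN_univ, ← eN_univ, eN_tr])
    (fun x => by have := h1 x; omega) (fun x => by have := h2 x; omega)
    (le_trans (card_le_card fun x => by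
      simp only [mem_filter, mem_univ, true_and]; have := h1 x; omega) h3)
    (le_trans (card_le_card fun x => by
      simp only [mem_filter, mem_univ, true_and]; have := h2 x; omega) h4)
    (fun x => (h1 x).1) (fun x => (h2 x).1)
    (fun _ X W _ _ hX hW => by
      have h9 := h8 X W hX hW
      have h10 : q * r ≤ β := le_trans (by rw [mul_assoc]; omega) h7
      refine Nat.le_of_mul_le_mul_left (le_trans ?_ h9) hq
      rw [← mul_assoc]
      rcases le_total #X #W with h | h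
      · rw [min_eq_left h, mul_comm]
        exact Nat.mul_le_mul_left _ (by omega)
      · rw [min_eq_right h]
        exact Nat.mul_le_mul_right _ (by omega)) h6
  refine ⟨fun e => G e ∧ ¬ Z e, fun e h => h.1, ⟨fun x => ?_, fun x => ?_⟩,
    h8.remove (Z := Z) (r := r) (fun e h => by tauto)
      (fun x => by have := h1 x; rw [z2]; omega) h7⟩
  · have := (DenseAux.sp z1 x).1
    have := h1 x
    have := z2 x
    omega
  · have := (DenseAux.sp z1 x).2
    have := h2 x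
    have := z3 x
    omega

theorem two_pow {Y : ℕ} (hY : 10 ^ 20 ≤ Y) : 2 ^ 260 ≤ Y ^ 4 ∧ 2 ^ 157 ≤ Y ^ 4 := by
  have h1 : (10 ^ 20) ^ 4 ≤ Y ^ 4 := Nat.pow_le_pow_left hY 4
  have h2 : 2 ^ 260 ≤ (10 ^ 20) ^ 4 := by
    rw [show 260 = 65 * 4 from rfl, pow_mul]
    exact Nat.pow_le_pow_left (by norm_num) 4
  exact ⟨h2.trans h1, (Nat.pow_le_pow_right (by norm_num) (by norm_num)).trans (h2.trans h1)⟩

/-- The nearly regular case. -/
theorem near {Y k r : ℕ} {G : V × V → Prop} (hY : 10 ^ 20 ≤ Y) (hn : Y ^ 264 ≤ Fintype.card V)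
    (hG : Irr G) (h1 : ∀ x, k ≤ rdeg G x ∧ rdeg G x ≤ k + r)
    (h2 : ∀ y, k ≤ rdeg (tr G) y ∧ rdeg (tr G) y ≤ k + r) (hr : Y ^ 162 * r ≤ Fintype.card V)
    (h3 : 2 * #(univ.filter fun x => Y ^ 150 * rdeg G x < Y ^ 150 * k + r) ≤ k)
    (h4 : 2 * #(univ.filter fun y => Y ^ 150 * rdeg (tr G) y < Y ^ 150 * k + r) ≤ k)
    (hD : ∀ X W : Finset V, Fintype.card V ≤ Y ^ 160 * #X → Fintype.card V ≤ Y ^ 160 * #W →
      #X * #W ≤ Y * eN G X W) : Tgt k G := by
  have Y0 : 0 < Y := by omega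
  obtain ⟨t1, t2⟩ := two_pow hY
  obtain ⟨n, hn0⟩ : ∃ n, n = Fintype.card V := ⟨_, rfl⟩
  have a0 : 0 < (2 * Y) ^ 260 := by positivity
  have a1 : (2 * Y) ^ 260 ≤ n := by
    rw [hn0, mul_pow]
    exact (Nat.mul_le_mul_right _ t1).trans ((le_of_eq (by ring)).trans hn)
  obtain ⟨Z, hZ, a2, a3⟩ : ∃ Z, 0 < Z ∧ (2 * Y) ^ 260 * Z ≤ n ∧ n ≤ 2 * ((2 * Y) ^ 260 * Z) := by
    have b0 := Nat.div_pos a1 a0
    refine ⟨n / (2 * Y) ^ 260, b0, Nat.mul_div_le _ _, ?_⟩
    have b1 := Nat.lt_mul_div_succ n a0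
    have b2 := Nat.le_mul_of_pos_right ((2 * Y) ^ 260) b0
    rw [mul_add, mul_one] at b1
    omega
  obtain ⟨β, hβ⟩ : ∃ β, β = (2 * Y) ^ 104 * Z := ⟨_, rfl⟩
  have e0 : (2 * Y) ^ 260 * Z = (2 * Y) ^ 156 * β := by rw [hβ, ← mul_assoc, ← pow_add]
  have a4 : n ≤ Y ^ 160 * β := by
    calc n ≤ 2 * ((2 * Y) ^ 260 * Z) := a3
      _ = 2 ^ 157 * (Y ^ 156 * β) := by rw [e0]; ring
      _ ≤ Y ^ 4 * (Y ^ 156 * β) := Nat.mul_le_mul_right _ t2
      _ = _ := by ring
  have a5 : Y ^ 156 * β ≤ n := by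
    refine le_trans ?_ a2
    calc Y ^ 156 * β ≤ (2 * Y) ^ 156 * β :=
          Nat.mul_le_mul_right _ (Nat.pow_le_pow_left (by omega) _)
      _ = _ := e0.symm
  have hD' : Den G Y β := fun X W hX hW => hD X W
    (hn0 ▸ a4.trans (Nat.mul_le_mul_left _ hX)) (hn0 ▸ a4.trans (Nat.mul_le_mul_left _ hW))
  rw [← hn0] at hr hn
  have a6 : Y ^ 2 * r ≤ β := by
    refine Nat.le_of_mul_le_mul_left (le_trans (le_of_eq ?_) (hr.trans a4)) (pow_pos Y0 160)
    ring
  have a7 : 2 * Y * r ≤ β := le_trans (Nat.mul_le_mul_right _ (by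
    rw [sq]; exact Nat.mul_le_mul_right _ (by omega))) a6
  have n0 : 0 < n := lt_of_lt_of_le a0 a1
  have a8 : n ≤ Y * (k + r) := hn0 ▸ deg_lb hD'
    (hn0 ▸ (Nat.le_mul_of_pos_left β (pow_pos Y0 156)).trans a5) (hn0 ▸ n0) fun x => (h1 x).2
  have p1 := pw hY r 5 1 162 (by norm_num) (by norm_num)
  have a9 : 4 * r ≤ k := by
    have : Y * (5 * r) ≤ Y * (k + r) := le_trans (le_of_eq (by ring)) (p1.trans (hr.trans a8))
    have := Nat.le_of_mul_le_mul_left this Y0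
    omega
  have a10 : 4 * (Y ^ 150 * β) ≤ k := by
    have p2 := pw hY β 8 151 156 (by norm_num) (by norm_num)
    have : Y * (8 * (Y ^ 150 * β)) ≤ Y * (k + r) :=
      le_trans (le_of_eq (by ring)) (p2.trans (a5.trans a8))
    have := Nat.le_of_mul_le_mul_left this Y0
    omega
  have M0 : 0 < Y ^ 150 := pow_pos Y0 _
  generalize Y ^ 150 = M at h3 h4 a10 M0
  obtain ⟨μ, m1, m2⟩ : ∃ μ, r ≤ M * μ ∧ M * μ < r + M := by
    refine ⟨(r + M - 1) / M, ?_, ?_⟩
    · have := Nat.lt_mul_div_succ (r + M - 1) M0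
      rw [mul_add] at this
      omega
    · have := Nat.mul_div_le (r + M - 1) M
      omega
  have low : ∀ a : ℕ, a < k + μ → M * a < M * k + r := fun a ha => by
    have := Nat.mul_le_mul_left M (show a + 1 ≤ k + μ from ha)
    rw [mul_add, mul_add, mul_one] at this
    omega
  obtain ⟨F, f1, f2, f3⟩ := trim4 (μ := μ) (s := k / 2) Y0 h1 h2
    (by
      refine le_trans (card_le_card fun x hx => ?_)
        (by omega : #(univ.filter fun x => M * rdeg G x < M * k + r) ≤ k / 2)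
      simp only [mem_filter, mem_univ, true_and] at hx ⊢
      exact low _ hx)
    (by
      refine le_trans (card_le_card fun x hx => ?_)
        (by omega : #(univ.filter fun x => M * rdeg (tr G) x < M * k + r) ≤ k / 2)
      simp only [mem_filter, mem_univ, true_and] at hx ⊢
      exact low _ hx)
    (by
      have b1 : r * β ≤ μ * (M * β) := (Nat.mul_le_mul_right _ m1).trans_eq (by ring)
      have b2 : μ * (M * β + (r + k / 2)) ≤ μ * k := Nat.mul_le_mul_left _ (by omega)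
      rw [mul_add] at b2
      omega) a7 hD'
  obtain ⟨H, c1, c2, c3⟩ := regular (Y := 2 * Y) (by omega) hZ (hn0 ▸ a2) (hn0 ▸ a3)
    (fun x h => hG x (f1 _ h)) f2 (hβ ▸ f3)
  exact ⟨H, c1, c2, fun j x => f1 _ (c3 j x)⟩

theorem ham_cyc {n : ℕ} (hn : 2 ≤ n) {c : Perm (Fin n)} (h : Ham c) :
    c.IsCycle ∧ c.support = univ := by
  classical
  have h1 : ∀ v, c v ≠ v := fun v hv => by
    have := congrArg card (h {v} (by simp) (by simp [Cl, hv]))
    simp at this
    omega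
  refine ⟨⟨⟨0, by omega⟩, h1 _, fun y _ => ?_⟩, by ext v; simp [h1]⟩
  have := h (univ.filter fun z => c.SameCycle ⟨0, by omega⟩ z) ⟨⟨0, by omega⟩, by
    simpa using Perm.SameCycle.refl _ _⟩ (fun z hz => by simpa using hz)
  simpa using this.ge (mem_univ y)

theorem out_eq (G : Finset (V × V)) (v : V) :
    rdeg (fun e => e ∈ G) v = #(G.filter fun e => e.1 = v) := by
  unfold rdeg
  refine card_bij (fun y _ => (v, y)) (fun y hy => ?_) (fun a _ b _ h => (Prod.ext_iff.1 h).2)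
    fun e he => ?_
  · simpa using hy
  · obtain ⟨h1, rfl⟩ := mem_filter.1 he
    exact ⟨e.2, by simpa using h1, rfl⟩

theorem in_eq (G : Finset (V × V)) (v : V) :
    rdeg (tr fun e => e ∈ G) v = #(G.filter fun e => e.2 = v) := by
  unfold rdeg
  refine card_bij (fun y _ => (y, v)) (fun y hy => ?_) (fun a _ b _ h => (Prod.ext_iff.1 h).1)
    fun e he => ?_
  · simpa [tr] using hy
  · obtain ⟨h1, rfl⟩ := mem_filter.1 he
    exact ⟨e.1, by simpa [tr] using h1, rfl⟩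

theorem eN_eq (G : Finset (V × V)) (X W : Finset V) :
    eN (fun e => e ∈ G) X W = #(G.filter fun e => e.1 ∈ X ∧ e.2 ∈ W) := by
  unfold eN
  congr 1
  ext e
  simp [and_comm]

end Pool.Agent.P.MP_de899d_pr.RG
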